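import Mathlib

set_option autoImplicit false

namespace Pool.Agent.Superrank

section ring

variable {R : Type} [CommRing R]

lemma sum_pow_eq_zero {κ : Type} (t : Finset κ) (f : κ → R) (h : ∀ k ∈ t, f k ^ 2 = 0) :
    (∑ k ∈ t, f k) ^ (t.card + 1) = 0 := by
  classical
  induction t using Finset.induction_on with
  | empty => simp
  | insert a t ha ih =>
    rw [Finset.sum_insert ha, Finset.card_insert_of_notMem ha]
    refine (Commute.all _ _).add_pow_eq_zero_of_add_le_succ_of_pow_eq_zero
      (h a (Finset.mem_insert_self _ _))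
      (ih fun k hk => h k (Finset.mem_insert_of_mem hk)) ?_
    omega

lemma det_mul_eq_zero {k : ℕ} (X : Matrix (Fin (k + 1)) (Fin k) R)
    (Y : Matrix (Fin k) (Fin (k + 1)) R) : (X * Y).det = 0 := by
  let X' : Matrix (Fin (k + 1)) (Fin (k + 1)) R :=
    Matrix.of fun i j => if h : (j : ℕ) < k then X i ⟨j, h⟩ else 0
  let Y' : Matrix (Fin (k + 1)) (Fin (k + 1)) R :=
    Matrix.of fun i j => if h : (i : ℕ) < k then Y ⟨i, h⟩ j else 0
  have h : X * Y = X' * Y' := by
    ext i j
    rw [Matrix.mul_apply, Matrix.mul_apply, Fin.sum_univ_castSucc]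
    simp [X', Y']
  rw [h, Matrix.det_mul, Matrix.det_eq_zero_of_row_eq_zero (A := Y') (Fin.last k), mul_zero]
  intro j
  simp [Y']

/-- nilpotency of `det (X Y + N)`, for `X Y` of rank at most `k` and `N` having entries which are
sums of elements of square zero. -/
lemma det_pow_eq_zero {k : ℕ} {ι : Type} [Fintype ι] (X : Matrix (Fin (k + 1)) (Fin k) R)
    (Y : Matrix (Fin k) (Fin (k + 1)) R) (n : Fin (k + 1) → Fin (k + 1) → ι → R)
    (hn : ∀ i j b, n i j b ^ 2 = 0) :
    ((X * Y + Matrix.of fun i j => ∑ b, n i j b).det) ^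
      (Fintype.card (Fin (k + 1) × Fin (k + 1) × ι) + 1) = 0 := by
  set J : Ideal R := Ideal.span (Set.range fun t : Fin (k + 1) × Fin (k + 1) × ι =>
    n t.1 t.2.1 t.2.2) with hJ
  have h1 : (X * Y + Matrix.of fun i j => ∑ b, n i j b).det ∈ J := by
    rw [← Ideal.Quotient.eq_zero_iff_mem, RingHom.map_det]
    have : (Ideal.Quotient.mk J).mapMatrix (X * Y + Matrix.of fun i j => ∑ b, n i j b) =
        (X.map (Ideal.Quotient.mk J)) * (Y.map (Ideal.Quotient.mk J)) := by
      ext i j
      simp only [RingHom.mapMatrix_apply, Matrix.map_apply, Matrix.add_apply, map_add,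
        Matrix.of_apply, map_sum]
      have h0 : ∑ b, (Ideal.Quotient.mk J) (n i j b) = 0 := by
        refine Finset.sum_eq_zero fun b _ => ?_
        rw [Ideal.Quotient.eq_zero_iff_mem]
        exact Ideal.subset_span ⟨(i, j, b), rfl⟩
      rw [h0, add_zero, Matrix.mul_apply, Matrix.mul_apply, map_sum]
      simp
    rw [this, det_mul_eq_zero]
  rw [hJ, Ideal.mem_span_range_iff_exists_fun] at h1
  obtain ⟨c, hc⟩ := h1
  rw [← hc, ← Finset.card_univ]
  refine sum_pow_eq_zero _ _ fun t _ => ?_
  rw [mul_pow, hn, mul_zero]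

end ring

section detOp

variable (F : Type) [Field F]

/-- The operator `∑_σ sgn(σ) R_{z(σ 0, 0)} R_{z(σ 1, 1)} ...`, where `R_z` is right
multiplication by `z`. -/
noncomputable def detOp {B : Type} [NonUnitalNonAssocRing B] [Module F B] [IsScalarTower F B B]
    {s : ℕ} (z : Fin s → Fin s → B) : Module.End F B :=
  ∑ σ : Equiv.Perm (Fin s), (Equiv.Perm.sign σ : ℤ) •
    (List.ofFn fun i => (LinearMap.mulRight F (z (σ i) i) : Module.End F B)).prod

variable {F}
variable {B : Type} [NonUnitalNonAssocRing B] [Module F B] [IsScalarTower F B B]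
  [SMulCommClass F B B]
variable {B' : Type} [NonUnitalNonAssocRing B'] [Module F B'] [IsScalarTower F B' B']
  [SMulCommClass F B' B']

omit [SMulCommClass F B B] [SMulCommClass F B' B'] in
lemma map_prod_ofFn (φ : B →ₙₐ[F] B') {s : ℕ} (z : Fin s → B) (w : B) :
    φ ((List.ofFn fun i => (LinearMap.mulRight F (z i) : Module.End F B)).prod w) =
      (List.ofFn fun i => (LinearMap.mulRight F (φ (z i)) : Module.End F B')).prod (φ w) := by
  induction s generalizing w with
  | zero => simp
  | succ s ih =>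
    rw [List.ofFn_succ, List.ofFn_succ, List.prod_cons, List.prod_cons, Module.End.mul_apply,
      Module.End.mul_apply, LinearMap.mulRight_apply, LinearMap.mulRight_apply, map_mul, ih]

omit [SMulCommClass F B B] [SMulCommClass F B' B'] in
lemma map_detOp (φ : B →ₙₐ[F] B') {s : ℕ} (z : Fin s → Fin s → B) (w : B) :
    φ (detOp F z w) = detOp F (fun i j => φ (z i j)) (φ w) := by
  unfold detOp
  rw [LinearMap.sum_apply, LinearMap.sum_apply, map_sum]
  refine Finset.sum_congr rfl fun σ _ => ?_
  rw [LinearMap.smul_apply, LinearMap.smul_apply, map_zsmul, map_prod_ofFn]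

omit [SMulCommClass F B B] [SMulCommClass F B' B'] in
lemma map_detOp_pow (φ : B →ₙₐ[F] B') {s : ℕ} (z : Fin s → Fin s → B) (w : B) (r : ℕ) :
    φ ((detOp F z ^ r) w) = (detOp F (fun i j => φ (z i j)) ^ r) (φ w) := by
  induction r generalizing w with
  | zero => simp
  | succ r ih =>
    rw [pow_succ', pow_succ', Module.End.mul_apply, Module.End.mul_apply, map_detOp, ih]

omit [SMulCommClass F B B] in
/-- On a subspace on which the operators `R_{z i j}` are given by elements of a commutative ring,
`detOp` is given by the determinant. -/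
lemma detOp_apply {C : Type} [CommRing C] (I : Submodule F B) (ρ : C →+* Module.End F I)
    {s : ℕ} (z : Fin s → Fin s → B) (c : Matrix (Fin s) (Fin s) C)
    (h : ∀ i j (m : I), ((ρ (c i j) m : I) : B) = (m : B) * z i j) (m : I) :
    detOp F z (m : B) = ((ρ c.det m : I) : B) := by
  have h1 : ∀ (t : ℕ) (y : Fin t → B) (d : Fin t → C),
      (∀ i (m : I), ((ρ (d i) m : I) : B) = (m : B) * y i) → ∀ m : I,
      (List.ofFn fun i => (LinearMap.mulRight F (y i) : Module.End F B)).prod (m : B) =
        ((ρ (List.ofFn d).prod m : I) : B) := by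
    intro t
    induction t with
    | zero => intro y d _ m; simp
    | succ t ih =>
      intro y d hd m
      rw [List.ofFn_succ, List.ofFn_succ, List.prod_cons, List.prod_cons, Module.End.mul_apply,
        LinearMap.mulRight_apply, ih _ (fun i => d i.succ) (fun i m => hd i.succ m), map_mul,
        Module.End.mul_apply, hd 0]
  rw [Matrix.det_apply, map_sum, LinearMap.sum_apply]
  unfold detOp
  rw [LinearMap.sum_apply, Submodule.coe_sum]
  refine Finset.sum_congr rfl fun σ _ => ?_
  rw [LinearMap.smul_apply, h1 s (fun i => z (σ i) i) (fun i => c (σ i) i)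
    (fun i m => h (σ i) i m) m, List.prod_ofFn]
  have h2 : (Equiv.Perm.sign σ • ∏ i, c (σ i) i : C) =
      ((Equiv.Perm.sign σ : ℤ) • ∏ i, c (σ i) i : C) := rfl
  rw [h2, map_zsmul, LinearMap.smul_apply]
  rfl

omit [SMulCommClass F B B] in
lemma detOp_pow_apply {C : Type} [CommRing C] (I : Submodule F B) (ρ : C →+* Module.End F I)
    {s : ℕ} (z : Fin s → Fin s → B) (c : Matrix (Fin s) (Fin s) C)
    (h : ∀ i j (m : I), ((ρ (c i j) m : I) : B) = (m : B) * z i j) (r : ℕ) (m : I) :
    (detOp F z ^ r) (m : B) = ((ρ (c.det ^ r) m : I) : B) := by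
  induction r generalizing m with
  | zero => simp
  | succ r ih =>
    rw [pow_succ, pow_succ, Module.End.mul_apply, map_mul, Module.End.mul_apply,
      detOp_apply I ρ z c h m, ih]

omit [SMulCommClass F B B] in
open scoped IsMulCommutative in
/-- Abstract nilpotency statement for `detOp`. -/
lemma detOp_pow_eq_zero {k : ℕ} {ι : Type} [Fintype ι] (I : Submodule F B)
    (z : Fin (k + 1) → Fin (k + 1) → B) (S : Set (Module.End F I))
    (hS : ∀ T ∈ S, ∀ T' ∈ S, T * T' = T' * T)
    (G : Fin (k + 1) → Fin k → Module.End F I) (Y : Fin k → Fin (k + 1) → Module.End F I)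
    (N : Fin (k + 1) → Fin (k + 1) → ι → Module.End F I)
    (hG : ∀ i l, G i l ∈ S) (hY : ∀ i l, Y i l ∈ S) (hN : ∀ i j l, N i j l ∈ S)
    (hsq : ∀ i j l (m : I), N i j l (N i j l m) = 0)
    (hz : ∀ i j (m : I), (m : B) * z i j =
      ((∑ l, G i l (Y l j m) + ∑ l, N i j l m : I) : B)) (w : B) (hw : w ∈ I) :
    (detOp F z ^ (Fintype.card (Fin (k + 1) × Fin (k + 1) × ι) + 1)) w = 0 := by
  have := Algebra.isMulCommutative_adjoin F hS
  let R := Algebra.adjoin F S
  let G' : Matrix (Fin (k + 1)) (Fin k) R :=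
    Matrix.of fun i l => ⟨G i l, Algebra.subset_adjoin (hG i l)⟩
  let Y' : Matrix (Fin k) (Fin (k + 1)) R :=
    Matrix.of fun i l => ⟨Y i l, Algebra.subset_adjoin (hY i l)⟩
  let N' : Fin (k + 1) → Fin (k + 1) → ι → R :=
    fun i j l => ⟨N i j l, Algebra.subset_adjoin (hN i j l)⟩
  have hN' : ∀ i j l, N' i j l ^ 2 = 0 := by
    intro i j l
    apply Subtype.ext
    show N i j l ^ 2 = 0
    apply LinearMap.ext
    intro m
    rw [pow_two, Module.End.mul_apply, hsq]
    rfl
  have hdet := det_pow_eq_zero G' Y' N' hN'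
  have h2 := detOp_pow_apply I R.val.toRingHom z (G' * Y' + Matrix.of fun i j => ∑ l, N' i j l)
    (by
      intro i j m
      rw [hz]
      have h1 : (G' * Y' + Matrix.of fun i j => ∑ l, N' i j l) i j =
          ∑ l, G' i l * Y' l j + ∑ l, N' i j l := by
        simp only [Matrix.add_apply, Matrix.mul_apply, Matrix.of_apply]
      rw [h1, map_add, map_sum, map_sum, LinearMap.add_apply, LinearMap.sum_apply,
        LinearMap.sum_apply]
      rfl)
    (Fintype.card (Fin (k + 1) × Fin (k + 1) × ι) + 1) ⟨w, hw⟩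
  rw [hdet, map_zero, LinearMap.zero_apply] at h2
  exact h2

end detOp

end Pool.Agent.Superrank
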