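import Mathlib

set_option autoImplicit false

namespace Pool.Agent.Superrank

open MvPolynomial

/-- The Lie algebra `H ⋉ F[X_0, ..., X_{s-1}]`, where `H` is the Heisenberg algebra of dimension
`2 s + 1`, acting on polynomials by derivatives, multiplications and scalars. -/
def HM (F : Type) [Field F] (s : ℕ) : Type :=
  (Fin s → F) × (Fin s → F) × F × MvPolynomial (Fin s) F

namespace HM

variable {F : Type} [Field F] {s : ℕ}

noncomputable instance : AddCommGroup (HM F s) :=
  inferInstanceAs (AddCommGroup ((Fin s → F) × (Fin s → F) × F × MvPolynomial (Fin s) F))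

noncomputable instance : Module F (HM F s) :=
  inferInstanceAs (Module F ((Fin s → F) × (Fin s → F) × F × MvPolynomial (Fin s) F))

/-- the coordinates -/
def a (u : HM F s) : Fin s → F := u.1
/-- the coordinates -/
def b (u : HM F s) : Fin s → F := u.2.1
/-- the coordinates -/
def c (u : HM F s) : F := u.2.2.1
/-- the coordinates -/
def m (u : HM F s) : MvPolynomial (Fin s) F := u.2.2.2

/-- constructor -/
def mk (a b : Fin s → F) (c : F) (m : MvPolynomial (Fin s) F) : HM F s := (a, b, c, m)

@[simp] lemma mk_a (a' b' : Fin s → F) (c' : F) (m' : MvPolynomial (Fin s) F) :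
    (mk a' b' c' m').a = a' := rfl
@[simp] lemma mk_b (a' b' : Fin s → F) (c' : F) (m' : MvPolynomial (Fin s) F) :
    (mk a' b' c' m').b = b' := rfl
@[simp] lemma mk_c (a' b' : Fin s → F) (c' : F) (m' : MvPolynomial (Fin s) F) :
    (mk a' b' c' m').c = c' := rfl
@[simp] lemma mk_m (a' b' : Fin s → F) (c' : F) (m' : MvPolynomial (Fin s) F) :
    (mk a' b' c' m').m = m' := rfl

lemma ext {u v : HM F s} (h1 : u.a = v.a) (h2 : u.b = v.b) (h3 : u.c = v.c) (h4 : u.m = v.m) :
    u = v := Prod.ext h1 (Prod.ext h2 (Prod.ext h3 h4))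

@[simp] lemma add_a (u v : HM F s) : (u + v).a = u.a + v.a := rfl
@[simp] lemma add_b (u v : HM F s) : (u + v).b = u.b + v.b := rfl
@[simp] lemma add_c (u v : HM F s) : (u + v).c = u.c + v.c := rfl
@[simp] lemma add_m (u v : HM F s) : (u + v).m = u.m + v.m := rfl
@[simp] lemma zero_a : (0 : HM F s).a = 0 := rfl
@[simp] lemma zero_b : (0 : HM F s).b = 0 := rfl
@[simp] lemma zero_c : (0 : HM F s).c = 0 := rfl
@[simp] lemma zero_m : (0 : HM F s).m = 0 := rfl
@[simp] lemma smul_a (t : F) (u : HM F s) : (t • u).a = t • u.a := rfl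
@[simp] lemma smul_b (t : F) (u : HM F s) : (t • u).b = t • u.b := rfl
@[simp] lemma smul_c (t : F) (u : HM F s) : (t • u).c = t * u.c := rfl
@[simp] lemma smul_m (t : F) (u : HM F s) : (t • u).m = t • u.m := rfl
@[simp] lemma neg_a (u : HM F s) : (-u).a = -u.a := rfl
@[simp] lemma neg_b (u : HM F s) : (-u).b = -u.b := rfl
@[simp] lemma neg_c (u : HM F s) : (-u).c = -u.c := rfl
@[simp] lemma neg_m (u : HM F s) : (-u).m = -u.m := rfl

/-- the derivation `∑ a_i ∂_i` -/
noncomputable def D (a : Fin s → F) : Derivation F (MvPolynomial (Fin s) F) (MvPolynomial (Fin s) F) :=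
  mkDerivation F fun i => C (a i)

/-- the linear form `∑ b_i X_i` -/
noncomputable def L (b : Fin s → F) : MvPolynomial (Fin s) F := ∑ i, C (b i) * X i

lemma D_add (a a' : Fin s → F) : D (a + a') = D a + D a' := by
  apply derivation_ext
  intro i
  simp [D, mkDerivation_X]

lemma D_smul (t : F) (a : Fin s → F) : D (t • a) = t • D a := by
  apply derivation_ext
  intro i
  simp [D, mkDerivation_X, smul_eq_C_mul]

lemma D_zero : D (0 : Fin s → F) = 0 := by
  apply derivation_ext
  intro i
  simp [D, mkDerivation_X]

lemma L_add (b b' : Fin s → F) : L (b + b') = L b + L b' := by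
  simp [L, add_mul, Finset.sum_add_distrib]

lemma L_smul (t : F) (b : Fin s → F) : L (t • b) = t • L b := by
  simp [L, Finset.smul_sum, smul_eq_C_mul, mul_assoc]

lemma L_zero : L (0 : Fin s → F) = 0 := by simp [L]

lemma D_L (a b : Fin s → F) : D a (L b) = C (∑ i, a i * b i) := by
  unfold L
  rw [map_sum, map_sum]
  refine Finset.sum_congr rfl fun i _ => ?_
  rw [Derivation.leibniz]
  simp [D, mkDerivation_X, mul_comm]

lemma D_comm (a a' : Fin s → F) (f : MvPolynomial (Fin s) F) : D a (D a' f) = D a' (D a f) := by
  have h : ⁅D a, D a'⁆ = 0 := by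
    apply derivation_ext
    intro i
    rw [Derivation.commutator_apply]
    simp [D, mkDerivation_X]
  have h2 := congrArg (fun E : Derivation F (MvPolynomial (Fin s) F) (MvPolynomial (Fin s) F) =>
    E f) h
  simp only [Derivation.commutator_apply, Derivation.coe_zero, Pi.zero_apply] at h2
  exact sub_eq_zero.1 h2

/-- the action of the Heisenberg algebra on polynomials -/
noncomputable def act (u : HM F s) (f : MvPolynomial (Fin s) F) : MvPolynomial (Fin s) F :=
  D u.a f + L u.b * f + C u.c * f

lemma act_add_left (u v : HM F s) (f : MvPolynomial (Fin s) F) :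
    act (u + v) f = act u f + act v f := by
  simp only [act, add_a, add_b, add_c, D_add, L_add, map_add, Derivation.add_apply]
  ring

lemma act_add_right (u : HM F s) (f g : MvPolynomial (Fin s) F) :
    act u (f + g) = act u f + act u g := by
  simp only [act, map_add]
  ring

lemma act_smul_left (t : F) (u : HM F s) (f : MvPolynomial (Fin s) F) :
    act (t • u) f = t • act u f := by
  simp only [act, smul_a, smul_b, smul_c, D_smul, L_smul, map_mul, Derivation.smul_apply,
    smul_eq_C_mul]
  ring

lemma act_smul_right (t : F) (u : HM F s) (f : MvPolynomial (Fin s) F) :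
    act u (t • f) = t • act u f := by
  simp only [act]
  rw [Derivation.map_smul]
  simp only [smul_eq_C_mul]
  ring

lemma act_zero (u : HM F s) : act u 0 = 0 := by simp [act]

lemma act_zero_left (u : HM F s) (ha : u.a = 0) (hb : u.b = 0) (f : MvPolynomial (Fin s) F) :
    act u f = C u.c * f := by
  simp [act, ha, hb, D_zero, L_zero]

/-- the symplectic form -/
def om (u v : HM F s) : F := ∑ i, (u.a i * v.b i - v.a i * u.b i)

lemma act_comm (u v : HM F s) (f : MvPolynomial (Fin s) F) :
    act u (act v f) - act v (act u f) = C (om u v) * f := by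
  have h1 : (C (om u v) : MvPolynomial (Fin s) F) = D u.a (L v.b) - D v.a (L u.b) := by
    rw [D_L, D_L, om, Finset.sum_sub_distrib, map_sub]
  rw [h1]
  simp only [act, map_add, Derivation.leibniz, smul_eq_mul, D_comm v.a u.a]
  have e1 : D u.a (C v.c) = 0 := (D u.a).map_algebraMap v.c
  have e2 : D v.a (C u.c) = 0 := (D v.a).map_algebraMap u.c
  rw [e1, e2]
  ring

noncomputable instance : Mul (HM F s) :=
  ⟨fun u v => mk 0 0 (om u v) (act u v.m - act v u.m)⟩

lemma mul_def (u v : HM F s) : u * v = mk 0 0 (om u v) (act u v.m - act v u.m) := rfl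

@[simp] lemma mul_a (u v : HM F s) : (u * v).a = 0 := rfl
@[simp] lemma mul_b (u v : HM F s) : (u * v).b = 0 := rfl
@[simp] lemma mul_c (u v : HM F s) : (u * v).c = om u v := rfl
@[simp] lemma mul_m (u v : HM F s) : (u * v).m = act u v.m - act v u.m := rfl

lemma om_add_left (u v w : HM F s) : om (u + v) w = om u w + om v w := by
  simp only [om, add_a, add_b, Pi.add_apply]
  rw [← Finset.sum_add_distrib]
  refine Finset.sum_congr rfl fun i _ => ?_
  ring

lemma om_add_right (u v w : HM F s) : om u (v + w) = om u v + om u w := by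
  simp only [om, add_a, add_b, Pi.add_apply]
  rw [← Finset.sum_add_distrib]
  refine Finset.sum_congr rfl fun i _ => ?_
  ring

lemma om_smul_left (t : F) (u v : HM F s) : om (t • u) v = t * om u v := by
  simp only [om, smul_a, smul_b, Pi.smul_apply, smul_eq_mul]
  rw [Finset.mul_sum]
  refine Finset.sum_congr rfl fun i _ => ?_
  ring

lemma om_smul_right (t : F) (u v : HM F s) : om u (t • v) = t * om u v := by
  simp only [om, smul_a, smul_b, Pi.smul_apply, smul_eq_mul]
  rw [Finset.mul_sum]
  refine Finset.sum_congr rfl fun i _ => ?_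
  ring

lemma om_zero_of (u v : HM F s) (ha : u.a = 0) (hb : u.b = 0) : om u v = 0 := by
  simp [om, ha, hb]

lemma om_zero_of' (u v : HM F s) (ha : v.a = 0) (hb : v.b = 0) : om u v = 0 := by
  simp [om, ha, hb]

noncomputable instance : NonUnitalNonAssocRing (HM F s) :=
  { (inferInstance : AddCommGroup (HM F s)) with
    mul := (· * ·)
    left_distrib := fun u v w => by
      apply ext
      · simp
      · simp
      · simp [om_add_right]
      · simp only [mul_m, add_m, act_add_right, act_add_left]; abel
    right_distrib := fun u v w => by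
      apply ext
      · simp
      · simp
      · simp [om_add_left]
      · simp only [mul_m, add_m, act_add_right, act_add_left]; abel
    zero_mul := fun u => by
      apply ext
      · simp
      · simp
      · simp [om]
      · simp only [mul_m, zero_m, act_zero]
        rw [act_zero_left 0 rfl rfl]
        simp
    mul_zero := fun u => by
      apply ext
      · simp
      · simp
      · simp [om]
      · simp only [mul_m, zero_m, act_zero]
        rw [act_zero_left 0 rfl rfl]
        simp }

instance : IsScalarTower F (HM F s) (HM F s) :=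
  ⟨fun t u v => by
    apply ext
    · show (t • u * v).a = (t • (u * v)).a
      simp
    · show (t • u * v).b = (t • (u * v)).b
      simp
    · show (t • u * v).c = (t • (u * v)).c
      simp [om_smul_left]
    · show (t • u * v).m = (t • (u * v)).m
      simp only [mul_m, smul_m, act_smul_left, act_smul_right, smul_sub]⟩

instance : SMulCommClass F (HM F s) (HM F s) :=
  ⟨fun t u v => by
    apply ext
    · show (t • (u * v)).a = (u * (t • v)).a
      simp
    · show (t • (u * v)).b = (u * (t • v)).b
      simp
    · show (t • (u * v)).c = (u * (t • v)).c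
      simp [om_smul_right]
    · show (t • (u * v)).m = (u * (t • v)).m
      simp only [mul_m, smul_m, act_smul_left, act_smul_right, smul_sub]⟩

lemma mul_self' (u : HM F s) : u * u = 0 := by
  apply ext
  · simp
  · simp
  · simp [om]
  · simp

lemma jacobi (u v w : HM F s) : (u * v) * w + (v * w) * u + (w * u) * v = 0 := by
  apply ext
  · simp
  · simp
  · simp only [add_c, mul_c, zero_c]
    rw [om_zero_of _ _ rfl rfl, om_zero_of _ _ rfl rfl, om_zero_of _ _ rfl rfl]
    simp
  · simp only [add_m, mul_m, zero_m]
    rw [act_zero_left (u * v) rfl rfl, act_zero_left (v * w) rfl rfl,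
      act_zero_left (w * u) rfl rfl, mul_c, mul_c, mul_c, ← act_comm, ← act_comm, ← act_comm]
    have hs : ∀ (x : HM F s) (f g : MvPolynomial (Fin s) F), act x (f - g) = act x f - act x g := by
      intro x f g
      rw [sub_eq_add_neg, act_add_right, ← neg_one_smul F g, act_smul_right, neg_one_smul,
        sub_eq_add_neg]
    rw [hs, hs, hs]
    abel

lemma mul_mul_eq (u v w : HM F s) : (u * v) * w = mk 0 0 0 ((u * v) * w).m := by
  apply ext
  · rfl
  · rfl
  · exact om_zero_of _ _ rfl rfl
  · rfl

lemma an2 (u v w u' v' w' : HM F s) : ((u * v) * w) * ((u' * v') * w') = 0 := by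
  rw [mul_mul_eq u v w, mul_mul_eq u' v' w']
  apply ext
  · simp
  · simp
  · simp [om]
  · rw [mul_m, act_zero_left _ rfl rfl, act_zero_left _ rfl rfl]
    simp

end HM

end Pool.Agent.Superrank
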