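import Pool.Agent.Superrank.Super

set_option autoImplicit false

open scoped TensorProduct

namespace Pool.Agent.Superrank

variable {F : Type} [Field F] {A : Type} [NonUnitalNonAssocRing A] [Module F A]
  [IsScalarTower F A A] [SMulCommClass F A A]

omit [IsScalarTower F A A] [SMulCommClass F A A] in
/-- a pure tensor `g ⊗ a` with `g ≠ 0` vanishes only if `a = 0` -/
lemma eq_zero_of_tmul {g : Gr F} (hg : g ≠ 0) {a : A} (h : g ⊗ₜ[F] a = 0) : a = 0 := by
  obtain ⟨φ, hφ⟩ : ∃ φ : Module.Dual F (Gr F), φ g ≠ 0 := by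
    by_contra hcon
    push Not at hcon
    exact hg ((Module.forall_dual_apply_eq_zero_iff F g).1 hcon)
  have h1 := congrArg (fun t => (TensorProduct.lid F A) ((LinearMap.rTensor A φ) t)) h
  simp only [LinearMap.rTensor_tmul, TensorProduct.lid_tmul, map_zero] at h1
  exact (smul_eq_zero.1 h1).resolve_left hφ

variable (A) in
/-- left multiplication by `g` on the first tensor factor -/
noncomputable def mulG (g : Gr F) : Gr F ⊗[F] A →ₗ[F] Gr F ⊗[F] A :=
  LinearMap.rTensor A (LinearMap.mulLeft F g)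

omit [IsScalarTower F A A] [SMulCommClass F A A] in
@[simp] lemma mulG_tmul (g h : Gr F) (a : A) : mulG A g (h ⊗ₜ[F] a) = (g * h) ⊗ₜ[F] a := by
  simp [mulG]

omit [IsScalarTower F A A] [SMulCommClass F A A] in
lemma mulG_mulG (g h : Gr F) (x : Gr F ⊗[F] A) : mulG A g (mulG A h x) = mulG A (g * h) x := by
  induction x using TensorProduct.induction_on with
  | zero => simp
  | tmul k a => simp [mul_assoc]
  | add x y h1 h2 => rw [map_add, map_add, map_add, h1, h2]

lemma mulG_mul (g : Gr F) (x y : Gr F ⊗[F] A) : mulG A g x * y = mulG A g (x * y) := by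
  induction x using TensorProduct.induction_on with
  | zero => simp
  | tmul k a =>
    induction y using TensorProduct.induction_on with
    | zero => simp
    | tmul l b => simp [mul_assoc]
    | add x y h1 h2 => rw [mul_add, mul_add, map_add, h1, h2]
  | add x y h1 h2 => rw [map_add, add_mul, add_mul, map_add, h1, h2]

lemma mul_mulG {𝒜 : ZMod 2 → Submodule F A} {g : Gr F} (hg : g ∈ grPart F 0)
    {x : Gr F ⊗[F] A} (hx : x ∈ envelopeSubmodule F A 𝒜) (y : Gr F ⊗[F] A) :
    x * mulG A g y = mulG A g (x * y) := by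
  induction hx using Submodule.span_induction with
  | mem x hx =>
    obtain ⟨p, h, hh, a, _, rfl⟩ := hx
    induction y using TensorProduct.induction_on with
    | zero => simp
    | tmul l b => simp only [mulG_tmul, Algebra.TensorProduct.tmul_mul_tmul, ← mul_assoc,
        even_comm hg hh]
    | add x y h1 h2 => rw [map_add, mul_add, mul_add, map_add, h1, h2]
  | zero => simp
  | add x z _ _ h1 h2 => rw [add_mul, add_mul, map_add, h1, h2]
  | smul c x _ h1 => rw [smul_mul_assoc, smul_mul_assoc, map_smul, h1]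

omit [IsScalarTower F A A] [SMulCommClass F A A] in
lemma mulG_mem {𝒜 : ZMod 2 → Submodule F A} {g : Gr F} (hg : g ∈ grPart F 0)
    {x : Gr F ⊗[F] A} (hx : x ∈ envelopeSubmodule F A 𝒜) :
    mulG A g x ∈ envelopeSubmodule F A 𝒜 := by
  induction hx using Submodule.span_induction with
  | mem x hx =>
    obtain ⟨p, h, hh, a, ha, rfl⟩ := hx
    rw [mulG_tmul]
    refine Submodule.subset_span ⟨p, g * h, ?_, a, ha, rfl⟩
    have := grPart_mul hg hh
    rwa [zero_add] at this
  | zero => rw [map_zero]; exact zero_mem _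
  | add x z _ _ h1 h2 => rw [map_add]; exact add_mem h1 h2
  | smul c x _ h1 => rw [map_smul]; exact Submodule.smul_mem _ _ h1

omit [IsScalarTower F A A] [SMulCommClass F A A] in
lemma tmul_mem {𝒜 : ZMod 2 → Submodule F A} {p : ZMod 2} {g : Gr F} (hg : g ∈ grPart F p)
    {a : A} (ha : a ∈ 𝒜 p) : g ⊗ₜ[F] a ∈ envelopeSubmodule F A 𝒜 :=
  Submodule.subset_span ⟨p, g, hg, a, ha, rfl⟩

variable (F A) in
/-- `G ⊗ A²` -/
noncomputable def U2 : Submodule F (Gr F ⊗[F] A) :=
  Submodule.span F {x | ∃ (g : Gr F) (c d : A), x = g ⊗ₜ[F] (c * d)}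

omit [IsScalarTower F A A] [SMulCommClass F A A] in
lemma tmul_mem_U2 (g : Gr F) {u : A} (hu : u ∈ A2 F A) : g ⊗ₜ[F] u ∈ U2 F A := by
  induction hu using Submodule.span_induction with
  | mem x hx => obtain ⟨c, d, rfl⟩ := hx; exact Submodule.subset_span ⟨g, c, d, rfl⟩
  | zero => rw [TensorProduct.tmul_zero]; exact zero_mem _
  | add x y _ _ h1 h2 => rw [TensorProduct.tmul_add]; exact add_mem h1 h2
  | smul c x _ h1 => rw [TensorProduct.tmul_smul]; exact Submodule.smul_mem _ _ h1

/-- every element of the envelope is a combination of the generators modulo `G ⊗ A²` -/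
lemma envelope_decomp {𝒜 : ZMod 2 → Submodule F A} (h : IsSuperalgebra F A 𝒜) {k : ℕ}
    {a b : Fin k → A} (ha : ∀ i, a i ∈ 𝒜 0) (hb : ∀ i, b i ∈ 𝒜 1)
    (hs : NonUnitalAlgebra.adjoin F (Set.range a ∪ Set.range b) = ⊤)
    {x : Gr F ⊗[F] A} (hx : x ∈ envelopeSubmodule F A 𝒜) :
    ∃ (g : Fin k → Gr F) (e : Fin k → Gr F) (u : Gr F ⊗[F] A), (∀ i, g i ∈ grPart F 0) ∧
      (∀ i, e i ∈ grPart F 1) ∧ u ∈ U2 F A ∧
      x = ∑ i, g i ⊗ₜ[F] a i + ∑ i, e i ⊗ₜ[F] b i + u := by
  obtain ⟨hA0, hA1⟩ := parts_span h ha hb hs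
  induction hx using Submodule.span_induction with
  | mem x hx =>
    obtain ⟨p, g, hg, c, hc, rfl⟩ := hx
    rcases zmod2_cases p with rfl | rfl
    · obtain ⟨c1, hc1, u, hu, rfl⟩ := Submodule.mem_sup.1 (hA0 hc)
      obtain ⟨α, rfl⟩ := (Submodule.mem_span_range_iff_exists_fun F).1 hc1
      refine ⟨fun i => α i • g, fun _ => 0, g ⊗ₜ[F] u, fun i => Submodule.smul_mem _ _ hg,
        fun i => zero_mem _, tmul_mem_U2 g hu, ?_⟩
      simp [TensorProduct.tmul_add, TensorProduct.tmul_sum, TensorProduct.smul_tmul]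
    · obtain ⟨c1, hc1, u, hu, rfl⟩ := Submodule.mem_sup.1 (hA1 hc)
      obtain ⟨α, rfl⟩ := (Submodule.mem_span_range_iff_exists_fun F).1 hc1
      refine ⟨fun _ => 0, fun i => α i • g, g ⊗ₜ[F] u, fun i => zero_mem _,
        fun i => Submodule.smul_mem _ _ hg, tmul_mem_U2 g hu, ?_⟩
      simp [TensorProduct.tmul_add, TensorProduct.tmul_sum, TensorProduct.smul_tmul]
  | zero =>
    exact ⟨fun _ => 0, fun _ => 0, 0, fun _ => zero_mem _, fun _ => zero_mem _, zero_mem _,
      by simp⟩
  | add x y _ _ h1 h2 =>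
    obtain ⟨g, e, u, hg, he, hu, rfl⟩ := h1
    obtain ⟨g', e', u', hg', he', hu', rfl⟩ := h2
    refine ⟨fun i => g i + g' i, fun i => e i + e' i, u + u', fun i => add_mem (hg i) (hg' i),
      fun i => add_mem (he i) (he' i), add_mem hu hu', ?_⟩
    simp only [TensorProduct.add_tmul, Finset.sum_add_distrib]
    abel
  | smul c x _ h1 =>
    obtain ⟨g, e, u, hg, he, hu, rfl⟩ := h1
    refine ⟨fun i => c • g i, fun i => c • e i, c • u, fun i => Submodule.smul_mem _ _ (hg i),
      fun i => Submodule.smul_mem _ _ (he i), Submodule.smul_mem _ _ hu, ?_⟩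
    simp only [smul_add, Finset.smul_sum, TensorProduct.smul_tmul']

end Pool.Agent.Superrank
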