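import Mathlib

set_option autoImplicit false

open scoped TensorProduct

namespace Pool.Agent.Superrank

/-- Nonassociative polynomials without constant term, in the variables `x_0, x_1, ...`, over `F`:
the free nonassociative algebra. -/
abbrev NAPoly (F : Type) [Field F] : Type := FreeNonUnitalNonAssocAlgebra F ℕ

/-- The polynomial `f` is an identity of the algebra `B`: every substitution of elements of `B`
for the variables sends `f` to zero. -/
def IsIdentity (F : Type) [Field F] (B : Type) [NonUnitalNonAssocRing B] [Module F B]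
    [IsScalarTower F B B] [SMulCommClass F B B] (f : NAPoly F) : Prop :=
  ∀ v : ℕ → B, FreeNonUnitalNonAssocAlgebra.lift F v f = 0

/-- The algebra `B` belongs to the variety defined by the set `S` of polynomials. -/
def Satisfies (F : Type) [Field F] (B : Type) [NonUnitalNonAssocRing B] [Module F B]
    [IsScalarTower F B B] [SMulCommClass F B B] (S : Set (NAPoly F)) : Prop :=
  ∀ f ∈ S, IsIdentity F B f

/-- `𝒜 0` and `𝒜 1` are the even and odd parts of a superalgebra structure on `A`. -/
structure IsSuperalgebra (F : Type) [Field F] (A : Type) [NonUnitalNonAssocRing A] [Module F A]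
    (𝒜 : ZMod 2 → Submodule F A) : Prop where
  isCompl : IsCompl (𝒜 0) (𝒜 1)
  mul_mem : ∀ i j : ZMod 2, ∀ a ∈ 𝒜 i, ∀ b ∈ 𝒜 j, a * b ∈ 𝒜 (i + j)

/-- The Grassmann algebra on countably many anticommuting generators. -/
abbrev Gr (F : Type) [Field F] : Type := ExteriorAlgebra F (ℕ →₀ F)

/-- The `n`-th generator of the Grassmann algebra. -/
noncomputable def gen (F : Type) [Field F] (n : ℕ) : Gr F :=
  ExteriorAlgebra.ι F (Finsupp.single n (1 : F))

/-- The span of the products of generators whose length is congruent to `p` modulo `2`. -/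
noncomputable def grPart (F : Type) [Field F] (p : ZMod 2) : Submodule F (Gr F) :=
  Submodule.span F {x | ∃ l : List ℕ, (l.length : ZMod 2) = p ∧ x = (l.map (gen F)).prod}

section Gr

variable {F : Type} [Field F]

lemma gen_swap (i j : ℕ) : gen F i * gen F j = - (gen F j * gen F i) := by
  have := ExteriorAlgebra.ι_add_mul_swap (R := F) (Finsupp.single i (1 : F)) (Finsupp.single j 1)
  exact eq_neg_of_add_eq_zero_left this

lemma gen_mul_list (i : ℕ) (l : List ℕ) :
    gen F i * (l.map (gen F)).prod = (-1 : F) ^ l.length • ((l.map (gen F)).prod * gen F i) := by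
  induction l with
  | nil => simp
  | cons a l ih =>
    rw [List.map_cons, List.prod_cons, ← mul_assoc, gen_swap i a, neg_mul, mul_assoc, ih,
      List.length_cons, pow_succ, mul_smul_comm, ← mul_assoc]
    simp

lemma list_mul_list (l m : List ℕ) :
    (l.map (gen F)).prod * (m.map (gen F)).prod =
      (-1 : F) ^ (l.length * m.length) • ((m.map (gen F)).prod * (l.map (gen F)).prod) := by
  induction l with
  | nil => simp
  | cons a l ih =>
    rw [List.map_cons, List.prod_cons, mul_assoc, ih, mul_smul_comm, ← mul_assoc, gen_mul_list,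
      smul_mul_assoc, smul_smul, List.length_cons, ← pow_add, mul_assoc]
    congr 2
    ring

lemma list_mem (l : List ℕ) : (l.map (gen F)).prod ∈ grPart F (l.length : ZMod 2) :=
  Submodule.subset_span ⟨l, rfl, rfl⟩

lemma one_mem_grPart : (1 : Gr F) ∈ grPart F 0 := by
  have := list_mem (F := F) []
  simpa using this

lemma gen_mem_grPart (i : ℕ) : gen F i ∈ grPart F 1 := by
  have := list_mem (F := F) [i]
  simpa using this

lemma grPart_mul {p q : ZMod 2} {g h : Gr F} (hg : g ∈ grPart F p) (hh : h ∈ grPart F q) :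
    g * h ∈ grPart F (p + q) := by
  induction hg using Submodule.span_induction with
  | mem x hx =>
    obtain ⟨l, hl, rfl⟩ := hx
    induction hh using Submodule.span_induction with
    | mem y hy =>
      obtain ⟨m, hm, rfl⟩ := hy
      rw [← List.prod_append, ← List.map_append]
      refine Submodule.subset_span ⟨l ++ m, ?_, rfl⟩
      rw [List.length_append, Nat.cast_add, hl, hm]
    | zero => rw [mul_zero]; exact Submodule.zero_mem _
    | add y z _ _ h1 h2 => rw [mul_add]; exact Submodule.add_mem _ h1 h2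
    | smul c y _ h1 => rw [mul_smul_comm]; exact Submodule.smul_mem _ _ h1
  | zero => rw [zero_mul]; exact Submodule.zero_mem _
  | add y z _ _ h1 h2 => rw [add_mul]; exact Submodule.add_mem _ h1 h2
  | smul c y _ h1 => rw [smul_mul_assoc]; exact Submodule.smul_mem _ _ h1

lemma neg_one_pow_of_cast {k : ℕ} (h : (k : ZMod 2) = 0) : (-1 : F) ^ k = 1 := by
  have : Even k := (ZMod.natCast_eq_zero_iff_even).1 h
  exact this.neg_one_pow

lemma neg_one_pow_of_cast' {k : ℕ} (h : (k : ZMod 2) = 1) : (-1 : F) ^ k = -1 := by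
  have : Odd k := (ZMod.natCast_eq_one_iff_odd).1 h
  exact this.neg_one_pow

/-- even elements commute with homogeneous elements -/
lemma even_comm {q : ZMod 2} {g h : Gr F} (hg : g ∈ grPart F 0) (hh : h ∈ grPart F q) :
    g * h = h * g := by
  induction hg using Submodule.span_induction with
  | mem x hx =>
    obtain ⟨l, hl, rfl⟩ := hx
    induction hh using Submodule.span_induction with
    | mem y hy =>
      obtain ⟨m, hm, rfl⟩ := hy
      rw [list_mul_list, neg_one_pow_of_cast, one_smul]
      rw [Nat.cast_mul, hl, zero_mul]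
    | zero => rw [mul_zero, zero_mul]
    | add y z _ _ h1 h2 => rw [mul_add, h1, h2, add_mul]
    | smul c y _ h1 => rw [mul_smul_comm, h1, smul_mul_assoc]
  | zero => rw [zero_mul, mul_zero]
  | add y z _ _ h1 h2 => rw [add_mul, h1, h2, mul_add]
  | smul c y _ h1 => rw [smul_mul_assoc, h1, mul_smul_comm]

/-- odd elements anticommute -/
lemma odd_anticomm {g h : Gr F} (hg : g ∈ grPart F 1) (hh : h ∈ grPart F 1) :
    g * h = - (h * g) := by
  induction hg using Submodule.span_induction with
  | mem x hx =>
    obtain ⟨l, hl, rfl⟩ := hx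
    induction hh using Submodule.span_induction with
    | mem y hy =>
      obtain ⟨m, hm, rfl⟩ := hy
      rw [list_mul_list, neg_one_pow_of_cast', neg_smul, one_smul]
      rw [Nat.cast_mul, hl, hm, mul_one]
    | zero => rw [mul_zero, zero_mul, neg_zero]
    | add y z _ _ h1 h2 => rw [mul_add, h1, h2, add_mul, neg_add]
    | smul c y _ h1 => rw [mul_smul_comm, h1, smul_mul_assoc, smul_neg]
  | zero => rw [zero_mul, mul_zero, neg_zero]
  | add y z _ _ h1 h2 => rw [add_mul, h1, h2, mul_add, neg_add]
  | smul c y _ h1 => rw [smul_mul_assoc, h1, mul_smul_comm, smul_neg]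

lemma odd_sq [CharZero F] {g : Gr F} (hg : g ∈ grPart F 1) : g * g = 0 := by
  have h := odd_anticomm hg hg
  have h2 : (2 : F) • (g * g) = 0 := by
    rw [two_smul]
    nth_rewrite 1 [h]
    simp
  exact (smul_eq_zero.1 h2).resolve_left two_ne_zero

/-- `h g h = 0` for odd `h` and homogeneous `g` -/
lemma odd_mul_mul_odd [CharZero F] {q : ZMod 2} {g h : Gr F} (hh : h ∈ grPart F 1)
    (hg : g ∈ grPart F q) : h * g * h = 0 := by
  have hq : q = 0 ∨ q = 1 := by
    have : ∀ x : ZMod 2, x = 0 ∨ x = 1 := by decide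
    exact this q
  rcases hq with rfl | rfl
  · rw [← even_comm hg hh, mul_assoc, odd_sq hh, mul_zero]
  · rw [odd_anticomm hh hg, neg_mul, mul_assoc, odd_sq hh, mul_zero, neg_zero]

/-- products of distinct generators in increasing order are nonzero -/
lemma prod_gen_ne_zero {n : ℕ} (f : Fin n ↪o ℕ) :
    (List.ofFn fun i => gen F (f i)).prod ≠ 0 := by
  have hb := (Finsupp.basisSingleOne (R := F) (ι := ℕ)).ExteriorAlgebra.ne_zero
    (Set.powersetCard.ofFinEmbEquiv f : Set.powersetCard ℕ n).1
  rw [ExteriorAlgebra.basis_apply_powersetCard] at hb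
  intro h
  apply hb
  rw [← h]
  show ExteriorAlgebra.ιMulti F n _ = _
  rw [ExteriorAlgebra.ιMulti_apply]
  congr 1
  congr 1
  funext i
  simp [gen]

end Gr

section envelope

variable (F : Type) [Field F] (A : Type) [NonUnitalNonAssocRing A] [Module F A]
  [IsScalarTower F A A] [SMulCommClass F A A]

/-- The space `G_0 ⊗ A_0 + G_1 ⊗ A_1`. -/
noncomputable def envelopeSubmodule (𝒜 : ZMod 2 → Submodule F A) : Submodule F (Gr F ⊗[F] A) :=
  Submodule.span F {x | ∃ p : ZMod 2, ∃ g ∈ grPart F p, ∃ a ∈ 𝒜 p, x = g ⊗ₜ[F] a}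

variable {F A}

lemma envelopeSubmodule_mul_mem {𝒜 : ZMod 2 → Submodule F A} (h : IsSuperalgebra F A 𝒜)
    {x y : Gr F ⊗[F] A} (hx : x ∈ envelopeSubmodule F A 𝒜) (hy : y ∈ envelopeSubmodule F A 𝒜) :
    x * y ∈ envelopeSubmodule F A 𝒜 := by
  induction hx using Submodule.span_induction with
  | mem x hx =>
    obtain ⟨p, g, hg, a, ha, rfl⟩ := hx
    induction hy using Submodule.span_induction with
    | mem y hy =>
      obtain ⟨q, k, hk, b, hb, rfl⟩ := hy
      rw [Algebra.TensorProduct.tmul_mul_tmul]
      exact Submodule.subset_span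
        ⟨p + q, g * k, grPart_mul hg hk, a * b, h.mul_mem p q a ha b hb, rfl⟩
    | zero => rw [mul_zero]; exact Submodule.zero_mem _
    | add y z _ _ h1 h2 => rw [mul_add]; exact Submodule.add_mem _ h1 h2
    | smul c y _ h1 => rw [mul_smul_comm]; exact Submodule.smul_mem _ _ h1
  | zero => rw [zero_mul]; exact Submodule.zero_mem _
  | add y z _ _ h1 h2 => rw [add_mul]; exact Submodule.add_mem _ h1 h2
  | smul c y _ h1 => rw [smul_mul_assoc]; exact Submodule.smul_mem _ _ h1

/-- The Grassmann envelope `G(A) = G_0 ⊗ A_0 + G_1 ⊗ A_1`, a subalgebra of `G ⊗ A`. -/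
noncomputable def envelope {𝒜 : ZMod 2 → Submodule F A} (h : IsSuperalgebra F A 𝒜) :
    NonUnitalSubalgebra F (Gr F ⊗[F] A) where
  toAddSubmonoid := (envelopeSubmodule F A 𝒜).toAddSubmonoid
  mul_mem' := envelopeSubmodule_mul_mem h
  smul_mem' := (envelopeSubmodule F A 𝒜).smul_mem'

/-- The polynomial `f` is an identity of the Grassmann envelope `G_0 ⊗ A_0 + G_1 ⊗ A_1`: every
substitution of elements of the envelope for the variables sends `f` to zero (in `G ⊗ A`). -/
def IsEnvelopeIdentity (𝒜 : ZMod 2 → Submodule F A) (f : NAPoly F) : Prop :=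
  ∀ v : ℕ → Gr F ⊗[F] A, (∀ i, v i ∈ envelopeSubmodule F A 𝒜) →
    FreeNonUnitalNonAssocAlgebra.lift F v f = 0

lemma lift_coe {𝒜 : ZMod 2 → Submodule F A} (h : IsSuperalgebra F A 𝒜) (v : ℕ → envelope h)
    (f : NAPoly F) : ((FreeNonUnitalNonAssocAlgebra.lift F v f : envelope h) : Gr F ⊗[F] A) =
      FreeNonUnitalNonAssocAlgebra.lift F (fun i => (v i : Gr F ⊗[F] A)) f := by
  have : (NonUnitalSubalgebraClass.subtype (envelope h)).comp
      (FreeNonUnitalNonAssocAlgebra.lift F v) =
      FreeNonUnitalNonAssocAlgebra.lift F (fun i => (v i : Gr F ⊗[F] A)) := by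
    apply FreeNonUnitalNonAssocAlgebra.hom_ext
    intro i
    show ((FreeNonUnitalNonAssocAlgebra.lift F v (FreeNonUnitalNonAssocAlgebra.of F i) :
      envelope h) : Gr F ⊗[F] A) = _
    rw [FreeNonUnitalNonAssocAlgebra.lift_of_apply, FreeNonUnitalNonAssocAlgebra.lift_of_apply]
  exact DFunLike.congr_fun this f

lemma isEnvelopeIdentity_iff {𝒜 : ZMod 2 → Submodule F A} (h : IsSuperalgebra F A 𝒜)
    (f : NAPoly F) : IsEnvelopeIdentity 𝒜 f ↔ IsIdentity F (envelope h) f := by
  constructor
  · intro hf v
    apply Subtype.ext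
    rw [lift_coe]
    exact hf _ fun i => (v i).2
  · intro hf v hv
    have := hf fun i => ⟨v i, hv i⟩
    rw [← lift_coe h (fun i => (⟨v i, hv i⟩ : envelope h)) f, this]
    rfl

end envelope

/-- The variety of algebras over `F` defined by the set `S` of polynomials has finite basic
superrank: it is the variety generated by the Grassmann envelope of some finitely generated
superalgebra. -/
def HasFiniteBasicSuperrank (F : Type) [Field F] (S : Set (NAPoly F)) : Prop :=
  ∃ (A : Type) (_ : NonUnitalNonAssocRing A) (_ : Module F A) (_ : IsScalarTower F A A)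
    (_ : SMulCommClass F A A) (𝒜 : ZMod 2 → Submodule F A), IsSuperalgebra F A 𝒜 ∧
    (∃ s : Finset A, NonUnitalAlgebra.adjoin F (s : Set A) = ⊤) ∧
    ∀ (C : Type) [NonUnitalNonAssocRing C] [Module F C] [IsScalarTower F C C]
      [SMulCommClass F C C],
      Satisfies F C S ↔ ∀ f : NAPoly F, IsEnvelopeIdentity 𝒜 f → IsIdentity F C f

end Pool.Agent.Superrank
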