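import Pool.Agent.Superrank.Det

set_option autoImplicit false

namespace Pool.Agent.Superrank

section ring

variable {R : Type} [CommRing R]

/-- a product of `r` sums over `κ`, `r > |κ|`, vanishes if terms with the same index have product
zero -/
lemma prod_sum_eq_zero {κ : Type} [Fintype κ] [DecidableEq κ] {r : ℕ} (p : Fin r → κ → R)
    (hp : ∀ t t' a, p t a * p t' a = 0) (hr : Fintype.card κ < r) :
    ∏ t, ∑ a, p t a = 0 := by
  rw [Finset.prod_univ_sum]
  refine Finset.sum_eq_zero fun f _ => ?_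
  obtain ⟨t, t', hne, heq⟩ := Fintype.exists_ne_map_eq_of_card_lt f (by
    rw [Fintype.card_fin]; exact hr)
  rw [← Finset.mul_prod_erase Finset.univ _ (Finset.mem_univ t),
    ← Finset.mul_prod_erase (Finset.univ.erase t) _
      (Finset.mem_erase.2 ⟨hne.symm, Finset.mem_univ t'⟩), ← mul_assoc, heq, hp, zero_mul]

lemma prod_det_eq_zero {k r : ℕ} {ι : Type} [Fintype ι] [DecidableEq ι]
    (X : Matrix (Fin (k + 1)) (Fin k) R)
    (Y : Fin r → Matrix (Fin k) (Fin (k + 1)) R)
    (n : Fin r → Fin (k + 1) → Fin (k + 1) → ι → R)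
    (hn : ∀ t t' i j j' l, n t i j l * n t' i j' l = 0)
    (hr : Fintype.card (Fin (k + 1) × ι) < r) :
    ∏ t, (X * Y t + Matrix.of fun i j => ∑ l, n t i j l).det = 0 := by
  have h1 : ∀ t, ∃ p : Fin (k + 1) × ι → R,
      (X * Y t + Matrix.of fun i j => ∑ l, n t i j l).det = ∑ a, p a ∧
      ∀ a, ∃ c : Fin (k + 1) → R, p a = ∑ j, c j * n t a.1 j a.2 := by
    intro t
    set J : Ideal R := Ideal.span (Set.range fun a : Fin (k + 1) × Fin (k + 1) × ι =>
      n t a.1 a.2.1 a.2.2) with hJ
    have h1 : (X * Y t + Matrix.of fun i j => ∑ l, n t i j l).det ∈ J := by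
      rw [← Ideal.Quotient.eq_zero_iff_mem, RingHom.map_det]
      have : (Ideal.Quotient.mk J).mapMatrix (X * Y t + Matrix.of fun i j => ∑ l, n t i j l) =
          (X.map (Ideal.Quotient.mk J)) * ((Y t).map (Ideal.Quotient.mk J)) := by
        ext i j
        simp only [RingHom.mapMatrix_apply, Matrix.map_apply, Matrix.add_apply, map_add,
          Matrix.of_apply, map_sum]
        have h0 : ∑ l, (Ideal.Quotient.mk J) (n t i j l) = 0 := by
          refine Finset.sum_eq_zero fun l _ => ?_
          rw [Ideal.Quotient.eq_zero_iff_mem]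
          exact Ideal.subset_span ⟨(i, j, l), rfl⟩
        rw [h0, add_zero, Matrix.mul_apply, Matrix.mul_apply, map_sum]
        simp
      rw [this, det_mul_eq_zero]
    rw [hJ, Ideal.mem_span_range_iff_exists_fun] at h1
    obtain ⟨c, hc⟩ := h1
    refine ⟨fun a => ∑ j, c (a.1, j, a.2) * n t a.1 j a.2, ?_, fun a => ⟨fun j => c (a.1, j, a.2),
      rfl⟩⟩
    rw [← hc, Fintype.sum_prod_type, Fintype.sum_prod_type]
    refine Finset.sum_congr rfl fun i _ => ?_
    rw [Fintype.sum_prod_type, Finset.sum_comm]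
  choose p hp hp' using h1
  have h2 : ∏ t, (X * Y t + Matrix.of fun i j => ∑ l, n t i j l).det = ∏ t, ∑ a, p t a :=
    Finset.prod_congr rfl fun t _ => hp t
  rw [h2]
  refine prod_sum_eq_zero p (fun t t' a => ?_) hr
  obtain ⟨c, hc⟩ := hp' t a
  obtain ⟨c', hc'⟩ := hp' t' a
  rw [hc, hc', Finset.sum_mul_sum]
  refine Finset.sum_eq_zero fun j _ => Finset.sum_eq_zero fun j' _ => ?_
  rw [mul_mul_mul_comm, hn, mul_zero]

end ring

section detE

variable {F : Type} [Field F] {B : Type} [AddCommGroup B] [Module F B]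

/-- The operator `∑_σ sgn(σ) T(σ 0, 0) T(σ 1, 1) ...`. -/
noncomputable def detE {s : ℕ} (T : Fin s → Fin s → Module.End F B) : Module.End F B :=
  ∑ σ : Equiv.Perm (Fin s), (Equiv.Perm.sign σ : ℤ) • (List.ofFn fun i => T (σ i) i).prod

lemma ofFn_prod_apply {C : Type} [CommRing C] (I : Submodule F B) (ρ : C →+* Module.End F I)
    (t : ℕ) (T : Fin t → Module.End F B) (d : Fin t → C)
    (hd : ∀ i (m : I), ((ρ (d i) m : I) : B) = T i (m : B)) (m : I) :
    (List.ofFn T).prod (m : B) = ((ρ (∏ i, d i) m : I) : B) := by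
  induction t with
  | zero => simp
  | succ t ih =>
    rw [List.ofFn_succ, List.prod_cons, Module.End.mul_apply,
      ih (fun i => T i.succ) (fun i => d i.succ) (fun i m => hd i.succ m), Fin.prod_univ_succ,
      map_mul, Module.End.mul_apply, hd 0]

/-- On a subspace on which the operators `T i j` are given by elements of a commutative ring,
`detE T` is given by the determinant. -/
lemma detE_apply {C : Type} [CommRing C] (I : Submodule F B) (ρ : C →+* Module.End F I)
    {s : ℕ} (T : Fin s → Fin s → Module.End F B) (c : Matrix (Fin s) (Fin s) C)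
    (h : ∀ i j (m : I), ((ρ (c i j) m : I) : B) = T i j (m : B)) (m : I) :
    detE T (m : B) = ((ρ c.det m : I) : B) := by
  rw [Matrix.det_apply, map_sum, LinearMap.sum_apply]
  unfold detE
  rw [LinearMap.sum_apply, Submodule.coe_sum]
  refine Finset.sum_congr rfl fun σ _ => ?_
  rw [LinearMap.smul_apply, ofFn_prod_apply I ρ s (fun i => T (σ i) i) (fun i => c (σ i) i)
    (fun i m => h (σ i) i m) m]
  have h2 : (Equiv.Perm.sign σ • ∏ i, c (σ i) i : C) =
      ((Equiv.Perm.sign σ : ℤ) • ∏ i, c (σ i) i : C) := rfl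
  rw [h2, map_zsmul, LinearMap.smul_apply]
  rfl

open scoped IsMulCommutative in
/-- Abstract vanishing statement for products of `detE`s. -/
lemma prod_detE_eq_zero {k r : ℕ} {ι : Type} [Fintype ι] [DecidableEq ι] (I : Submodule F B)
    (T : Fin r → Fin (k + 1) → Fin (k + 1) → Module.End F B) (S : Set (Module.End F I))
    (hS : ∀ T ∈ S, ∀ T' ∈ S, T * T' = T' * T)
    (G : Fin (k + 1) → Fin k → Module.End F I)
    (Y : Fin r → Fin k → Fin (k + 1) → Module.End F I)
    (N : Fin r → Fin (k + 1) → Fin (k + 1) → ι → Module.End F I)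
    (hG : ∀ i l, G i l ∈ S) (hY : ∀ t i l, Y t i l ∈ S) (hN : ∀ t i j l, N t i j l ∈ S)
    (hsq : ∀ t t' i j j' l (m : I), N t i j l (N t' i j' l m) = 0)
    (hz : ∀ t i j (m : I), T t i j (m : B) =
      ((∑ l, G i l (Y t l j m) + ∑ l, N t i j l m : I) : B))
    (hr : Fintype.card (Fin (k + 1) × ι) < r) (w : B) (hw : w ∈ I) :
    (List.ofFn fun t => detE (T t)).prod w = 0 := by
  have := Algebra.isMulCommutative_adjoin F hS
  let R := Algebra.adjoin F S
  let G' : Matrix (Fin (k + 1)) (Fin k) R :=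
    Matrix.of fun i l => ⟨G i l, Algebra.subset_adjoin (hG i l)⟩
  let Y' : Fin r → Matrix (Fin k) (Fin (k + 1)) R :=
    fun t => Matrix.of fun i l => ⟨Y t i l, Algebra.subset_adjoin (hY t i l)⟩
  let N' : Fin r → Fin (k + 1) → Fin (k + 1) → ι → R :=
    fun t i j l => ⟨N t i j l, Algebra.subset_adjoin (hN t i j l)⟩
  have hN' : ∀ t t' i j j' l, N' t i j l * N' t' i j' l = 0 := by
    intro t t' i j j' l
    apply Subtype.ext
    show N t i j l * N t' i j' l = 0
    apply LinearMap.ext
    intro m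
    rw [Module.End.mul_apply, hsq]
    rfl
  have hdet := prod_det_eq_zero G' Y' N' hN' hr
  have h2 := ofFn_prod_apply I R.val.toRingHom r (fun t => detE (T t))
    (fun t => (G' * Y' t + Matrix.of fun i j => ∑ l, N' t i j l).det)
    (by
      intro t m
      refine (detE_apply I R.val.toRingHom (T t)
        (G' * Y' t + Matrix.of fun i j => ∑ l, N' t i j l) ?_ m).symm
      intro i j m
      rw [hz]
      have h1 : (G' * Y' t + Matrix.of fun i j => ∑ l, N' t i j l) i j =
          ∑ l, G' i l * Y' t l j + ∑ l, N' t i j l := by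
        simp only [Matrix.add_apply, Matrix.mul_apply, Matrix.of_apply]
      rw [h1, map_add, map_sum, map_sum, LinearMap.add_apply, LinearMap.sum_apply,
        LinearMap.sum_apply]
      rfl) ⟨w, hw⟩
  rw [hdet, map_zero, LinearMap.zero_apply] at h2
  exact h2

end detE

end Pool.Agent.Superrank
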