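import Pool.Agent.Superrank.JModel
import Pool.Agent.Superrank.JDet
import Pool.Agent.Superrank.Tensor

set_option autoImplicit false

open scoped TensorProduct

namespace Pool.Agent.Superrank

section ops

variable (F : Type) [Field F] {B : Type} [NonUnitalNonAssocRing B] [Module F B]
  [IsScalarTower F B B]

/-- the operator `w ↦ (w ((x y) b)) b'` -/
noncomputable def Tq (x y b b' : B) : Module.End F B :=
  LinearMap.mulRight F b' * LinearMap.mulRight F ((x * y) * b)

/-- the product over `t` of the determinants of the operators `Tq x_i y_j b_tj b'_tj` -/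
noncomputable def bigOp {s r : ℕ} (x y : Fin s → B) (b b' : Fin r → Fin s → B) :
    Module.End F B :=
  (List.ofFn fun t => detE (fun i j => Tq F (x i) (y j) (b t j) (b' t j))).prod

variable {F}

lemma Tq_apply (x y b b' w : B) : Tq F x y b b' w = (w * ((x * y) * b)) * b' := rfl

lemma Tq_smul_left {x y b b' : B} {B' : Type} [NonUnitalNonAssocRing B'] [Module F B']
    [IsScalarTower F B' B'] (φ : B →ₙₐ[F] B') (w : B) :
    φ (Tq F x y b b' w) = Tq F (φ x) (φ y) (φ b) (φ b') (φ w) := by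
  simp only [Tq_apply, map_mul]

variable {B' : Type} [NonUnitalNonAssocRing B'] [Module F B'] [IsScalarTower F B' B']

lemma map_ofFn_prod {n : ℕ} (φ : B →ₙₐ[F] B') (f : Fin n → Module.End F B)
    (g : Fin n → Module.End F B') (h : ∀ i w, φ (f i w) = g i (φ w)) (w : B) :
    φ ((List.ofFn f).prod w) = (List.ofFn g).prod (φ w) := by
  induction n with
  | zero => simp
  | succ n ih =>
    rw [List.ofFn_succ, List.ofFn_succ, List.prod_cons, List.prod_cons, Module.End.mul_apply,
      Module.End.mul_apply, h, ih (fun i => f i.succ) (fun i => g i.succ) fun i w => h i.succ w]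

lemma map_detE {s : ℕ} (φ : B →ₙₐ[F] B') (T : Fin s → Fin s → Module.End F B)
    (T' : Fin s → Fin s → Module.End F B') (h : ∀ i j w, φ (T i j w) = T' i j (φ w)) (w : B) :
    φ (detE T w) = detE T' (φ w) := by
  unfold detE
  rw [LinearMap.sum_apply, LinearMap.sum_apply, map_sum]
  refine Finset.sum_congr rfl fun σ _ => ?_
  rw [LinearMap.smul_apply, LinearMap.smul_apply, map_zsmul,
    map_ofFn_prod φ _ (fun i => T' (σ i) i) (fun i w => h (σ i) i w)]

lemma map_bigOp {s r : ℕ} (φ : B →ₙₐ[F] B') (x y : Fin s → B) (b b' : Fin r → Fin s → B) (w : B) :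
    φ (bigOp F x y b b' w) = bigOp F (fun i => φ (x i)) (fun i => φ (y i))
      (fun t i => φ (b t i)) (fun t i => φ (b' t i)) (φ w) := by
  unfold bigOp
  refine map_ofFn_prod φ _ _ (fun t w => ?_) w
  exact map_detE φ _ _ (fun i j w => Tq_smul_left φ w) w

end ops

section zero

variable {F : Type} [Field F] {B : Type} [AddCommGroup B] [Module F B]

lemma ofFn_prod_mem {n : ℕ} (P : B → Prop) (f : Fin n → Module.End F B)
    (hP : ∀ i w, P w → P (f i w)) (w : B) (hw : P w) : P ((List.ofFn f).prod w) := by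
  induction n with
  | zero => simpa using hw
  | succ n ih =>
    rw [List.ofFn_succ, List.prod_cons, Module.End.mul_apply]
    exact hP _ _ (ih (fun i => f i.succ) fun i w h => hP _ _ h)

lemma ofFn_prod_zero {n : ℕ} (P : B → Prop) (f : Fin n → Module.End F B)
    (hP : ∀ i w, P w → P (f i w)) (i : Fin n) (hi : ∀ w, P w → f i w = 0) (w : B) (hw : P w) :
    (List.ofFn f).prod w = 0 := by
  induction n with
  | zero => exact i.elim0
  | succ n ih =>
    rw [List.ofFn_succ, List.prod_cons, Module.End.mul_apply]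
    refine Fin.cases (fun hi => ?_) (fun j hi => ?_) i hi
    · exact hi _ (ofFn_prod_mem P (fun i => f i.succ) (fun i w h => hP _ _ h) w hw)
    · rw [ih (fun i => f i.succ) (fun i w h => hP _ _ h) j hi, map_zero]

end zero

section conc

variable (F : Type) [Field F] (s : ℕ)

/-- the quadratic form `∑ x_i²` -/
noncomputable def Qs : QuadraticForm F (Fin s → F) :=
  QuadraticMap.weightedSumSquares F (fun _ : Fin s => (1 : F))

lemma Qs_apply (x : Fin s → F) : Qs F s x = ∑ i, x i * x i := by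
  simp [Qs, QuadraticMap.weightedSumSquares_apply]

lemma polar_single (i j : Fin s) :
    QuadraticMap.polar (Qs F s) (Pi.single i 1) (Pi.single j 1) = if i = j then 2 else 0 := by
  have h : ∀ x y : Fin s → F, QuadraticMap.polar (Qs F s) x y = ∑ i, 2 * (x i * y i) := by
    intro x y
    simp only [QuadraticMap.polar, Qs_apply, Pi.add_apply]
    rw [← Finset.sum_sub_distrib, ← Finset.sum_sub_distrib]
    refine Finset.sum_congr rfl fun i _ => ?_
    ring
  rw [h]
  by_cases hij : i = j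
  · subst hij
    rw [if_pos rfl, Finset.sum_eq_single i]
    · simp
    · intro b _ hb; simp [hb]
    · simp
  · rw [if_neg hij]
    refine Finset.sum_eq_zero fun l _ => ?_
    by_cases hl : l = i
    · subst hl; simp [hij]
    · simp [hl]

/-- the Clifford algebra of `∑ x_i²` -/
abbrev Cl : Type := CliffordAlgebra (Qs F s)

/-- the data of the model -/
noncomputable def JD : JData F ((Fin s → F) × (ℕ →₀ F)) (Gr F ⊗[F] Cl F s) where
  β := (QuadraticMap.polarBilin (Qs F s)).compl₁₂ (LinearMap.fst F _ _) (LinearMap.fst F _ _)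
  u := (Algebra.TensorProduct.includeRight : Cl F s →ₐ[F] Gr F ⊗[F] Cl F s).toLinearMap ∘ₗ
    CliffordAlgebra.ι (Qs F s) ∘ₗ LinearMap.fst F _ _
  v := (Algebra.TensorProduct.includeLeft : Gr F →ₐ[F] Gr F ⊗[F] Cl F s).toLinearMap ∘ₗ
    ExteriorAlgebra.ι F ∘ₗ LinearMap.snd F _ _
  β_symm a b := QuadraticMap.polar_comm _ _ _
  uu a := by
    change (1 : Gr F) ⊗ₜ[F] CliffordAlgebra.ι (Qs F s) a.1 * (1 : Gr F) ⊗ₜ[F]
      CliffordAlgebra.ι (Qs F s) a.1 + (1 : Gr F) ⊗ₜ[F] CliffordAlgebra.ι (Qs F s) a.1 *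
      (1 : Gr F) ⊗ₜ[F] CliffordAlgebra.ι (Qs F s) a.1 =
      algebraMap F _ (QuadraticMap.polar (Qs F s) a.1 a.1)
    rw [Algebra.TensorProduct.tmul_mul_tmul, one_mul, ← TensorProduct.tmul_add,
      CliffordAlgebra.ι_mul_ι_add_swap, Algebra.TensorProduct.algebraMap_apply,
      Algebra.algebraMap_eq_smul_one, Algebra.algebraMap_eq_smul_one, TensorProduct.tmul_smul,
      TensorProduct.smul_tmul']
  vv a b := by
    change (ExteriorAlgebra.ι F a.2) ⊗ₜ[F] (1 : Cl F s) * (ExteriorAlgebra.ι F b.2) ⊗ₜ[F] 1 =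
      - ((ExteriorAlgebra.ι F b.2) ⊗ₜ[F] 1 * (ExteriorAlgebra.ι F a.2) ⊗ₜ[F] 1)
    rw [Algebra.TensorProduct.tmul_mul_tmul, Algebra.TensorProduct.tmul_mul_tmul,
      ← TensorProduct.neg_tmul]
    congr 1
    exact eq_neg_of_add_eq_zero_left (ExteriorAlgebra.ι_add_mul_swap _ _)
  vsq a := by
    change (ExteriorAlgebra.ι F a.2) ⊗ₜ[F] (1 : Cl F s) * (ExteriorAlgebra.ι F a.2) ⊗ₜ[F] 1 = 0
    rw [Algebra.TensorProduct.tmul_mul_tmul, ExteriorAlgebra.ι_sq_zero, TensorProduct.zero_tmul]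
  uv a b := by
    change (1 : Gr F) ⊗ₜ[F] CliffordAlgebra.ι (Qs F s) a.1 * (ExteriorAlgebra.ι F b.2) ⊗ₜ[F]
      (1 : Cl F s) = (ExteriorAlgebra.ι F b.2) ⊗ₜ[F] (1 : Cl F s) * (1 : Gr F) ⊗ₜ[F]
      CliffordAlgebra.ι (Qs F s) a.1
    rw [Algebra.TensorProduct.tmul_mul_tmul, Algebra.TensorProduct.tmul_mul_tmul, one_mul,
      mul_one, one_mul, mul_one]

lemma JD_β (a b : (Fin s → F) × (ℕ →₀ F)) :
    (JD F s).β a b = QuadraticMap.polar (Qs F s) a.1 b.1 := rfl

lemma JD_u (a : (Fin s → F) × (ℕ →₀ F)) :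
    (JD F s).u a = (1 : Gr F) ⊗ₜ[F] CliffordAlgebra.ι (Qs F s) a.1 := rfl

lemma JD_v (a : (Fin s → F) × (ℕ →₀ F)) :
    (JD F s).v a = (ExteriorAlgebra.ι F a.2) ⊗ₜ[F] (1 : Cl F s) := rfl

/-- the models -/
abbrev JC : Type := JM (JD F s)

/-- the generator `i` of the first kind -/
noncomputable def eX (i : Fin s) : JC F s := JM.mk _ (Pi.single i 1, 0) 0 0 0 0
/-- the generator `i` of the second kind -/
noncomputable def eB (i : ℕ) : JC F s := JM.mk _ (0, Finsupp.single i 1) 0 0 0 0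

/-- the product of the first `n` generators of the Grassmann algebra -/
noncomputable def Gn (n : ℕ) : Gr F := ((List.range n).map (gen F)).prod

lemma Gn_succ (n : ℕ) : Gn F (n + 1) = Gn F n * gen F n := by
  simp [Gn, List.range_succ]

lemma Gn_ne_zero (n : ℕ) : Gn F n ≠ 0 := list_prod_ne_zero _ List.pairwise_lt_range

variable {F s}

lemma T_eX (i j : Fin s) (p q : ℕ) (m : Gr F ⊗[F] Cl F s) :
    Tq F (eX F s i) (eX F s j) (eB F s p) (eB F s q) (JM.mk _ 0 0 0 m 0) =
      JM.mk _ 0 0 0 ((-(if i = j then 2 else 0 : F)) • (((gen F q * gen F p) ⊗ₜ[F] 1) * m)) 0 := by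
  rw [Tq_apply]
  have h1 : (eX F s i * eX F s j) * eB F s p =
      JM.mk _ 0 0 ((if i = j then 2 else 0 : F) • (0, Finsupp.single p 1)) 0 0 := by
    apply JM.ext
    · rfl
    · simp
    · simp [eX, eB, JD_β, polar_single]
    · simp [eX, eB]
    · simp [eX, eB]
  rw [h1]
  apply JM.ext
  · rfl
  · simp
  · simp
  · simp only [JM.mul_m, JM.mul_n, JM.mk_m, JM.mk_n, JM.mk_a, JM.mk_z, JM.mul_a, map_zero,
      zero_mul, zero_add, add_zero, zero_sub, eB]
    rw [map_smul, JD_v, JD_v, smul_mul_assoc, mul_neg, mul_smul_comm, ← mul_assoc,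
      Algebra.TensorProduct.tmul_mul_tmul, mul_one, neg_smul]
    rfl
  · simp only [JM.mul_n, JM.mul_m, JM.mk_m, JM.mk_n, JM.mk_a, JM.mk_z, JM.mul_z, JM.mk_d,
      JM.mul_d, map_zero, LinearMap.zero_apply, mul_zero, add_zero, zero_smul, smul_zero,
      zero_mul, eB, sub_self]

/-- the elements of the first part of the bimodule -/
noncomputable def iM (m : Gr F ⊗[F] Cl F s) : JC F s := JM.mk _ 0 0 0 m 0

lemma ofFn_prod_eval {n : ℕ} (f : Fin n → Module.End F (JC F s)) (c : Fin n → Gr F ⊗[F] Cl F s)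
    (h : ∀ i m, f i (iM m) = iM (c i * m)) (m : Gr F ⊗[F] Cl F s) :
    (List.ofFn f).prod (iM m) = iM ((List.ofFn c).prod * m) := by
  induction n with
  | zero => simp
  | succ n ih =>
    rw [List.ofFn_succ, List.ofFn_succ, List.prod_cons, List.prod_cons, Module.End.mul_apply,
      ih (fun i => f i.succ) (fun i => c i.succ) (fun i m => h i.succ m), h, mul_assoc]

/-- the factors of the value of the polynomial in the model -/
noncomputable def cf (F : Type) [Field F] (s t j : ℕ) : Gr F ⊗[F] Cl F s :=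
  (-2 : F) • ((gen F (2 * (t * s + j)) * gen F (2 * (t * s + j) + 1)) ⊗ₜ[F] 1)

lemma detE_eval (t : ℕ) (m : Gr F ⊗[F] Cl F s) :
    detE (fun i j : Fin s => Tq F (eX F s i) (eX F s j) (eB F s (2 * (t * s + j) + 1))
      (eB F s (2 * (t * s + j)))) (iM m) =
      iM ((List.ofFn fun j : Fin s => cf F s t j).prod * m) := by
  unfold detE
  rw [LinearMap.sum_apply, Finset.sum_eq_single 1]
  · rw [Equiv.Perm.sign_one, LinearMap.smul_apply, Units.val_one, one_smul,
      ofFn_prod_eval _ (fun j : Fin s => cf F s t j)]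
    intro i m
    have h := T_eX (F := F) (s := s) i i (2 * (t * s + i) + 1) (2 * (t * s + i)) m
    rw [if_pos rfl] at h
    refine Eq.trans h ?_
    rw [iM, cf, smul_mul_assoc]
  · intro σ _ hσ
    obtain ⟨i, hi⟩ : ∃ i, σ i ≠ i := by
      by_contra hcon
      push Not at hcon
      exact hσ (Equiv.Perm.ext hcon)
    rw [LinearMap.smul_apply, ofFn_prod_zero (fun w : JC F s => ∃ m, w = iM m) _ _ i _ _ ⟨m, rfl⟩,
      smul_zero]
    · rintro j w ⟨m, rfl⟩
      exact ⟨_, T_eX _ _ _ _ _⟩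
    · rintro w ⟨m, rfl⟩
      have h := T_eX (F := F) (s := s) (σ i) i (2 * (t * s + i) + 1) (2 * (t * s + i)) m
      rw [if_neg hi, neg_zero, zero_smul] at h
      exact h
  · intro h
    exact absurd (Finset.mem_univ _) h

lemma prod_cf (t o n : ℕ) (ho : o = 2 * (t * s)) :
    ((Gn F o) ⊗ₜ[F] (1 : Cl F s)) * (List.ofFn fun j : Fin n => cf F s t j).prod =
      ((-2 : F) ^ n) • ((Gn F (o + 2 * n)) ⊗ₜ[F] (1 : Cl F s)) := by
  induction n with
  | zero => simp
  | succ n ih =>
    rw [List.ofFn_succ', List.prod_concat, ← mul_assoc]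
    have e : (fun j : Fin n => cf F s t (j.castSucc : Fin (n + 1))) = fun j : Fin n => cf F s t j :=
      rfl
    rw [e, ih, cf, smul_mul_assoc, mul_smul_comm, Algebra.TensorProduct.tmul_mul_tmul, mul_one,
      smul_smul, ← pow_succ, ← mul_assoc]
    congr 2
    have e1 : 2 * (t * s + ((Fin.last n : Fin (n + 1)) : ℕ)) = o + 2 * n := by
      rw [Fin.val_last, ho]; ring
    have e2 : o + 2 * (n + 1) = o + 2 * n + 1 + 1 := by ring
    rw [e1, ← Gn_succ, ← Gn_succ, e2]

lemma prod_prod_cf (r : ℕ) :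
    (List.ofFn fun t : Fin r => (List.ofFn fun j : Fin s => cf F s t j).prod).prod =
      ((-2 : F) ^ (r * s)) • ((Gn F (2 * (r * s))) ⊗ₜ[F] (1 : Cl F s)) := by
  induction r with
  | zero =>
    rw [List.ofFn_zero, List.prod_nil, zero_mul, pow_zero, one_smul]
    simp [Gn, Algebra.TensorProduct.one_def]
  | succ r ih =>
    rw [List.ofFn_succ', List.prod_concat]
    have e : (fun t : Fin r => (List.ofFn fun j : Fin s =>
        cf F s ((t.castSucc : Fin (r + 1)) : ℕ) j).prod) =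
      fun t : Fin r => (List.ofFn fun j : Fin s => cf F s t j).prod := rfl
    rw [e, ih, smul_mul_assoc, Fin.val_last, prod_cf r (2 * (r * s)) s rfl, smul_smul, ← pow_add]
    congr 1
    · ring
    · congr 2
      ring

/-- the value of the polynomial in the model -/
lemma bigOp_eval (r : ℕ) (m : Gr F ⊗[F] Cl F s) :
    bigOp F (fun i : Fin s => eX F s i) (fun j : Fin s => eX F s j)
      (fun (t : Fin r) (j : Fin s) => eB F s (2 * ((t : ℕ) * s + j) + 1))
      (fun (t : Fin r) (j : Fin s) => eB F s (2 * ((t : ℕ) * s + j))) (iM m) =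
      iM ((((-2 : F) ^ (r * s)) • ((Gn F (2 * (r * s))) ⊗ₜ[F] (1 : Cl F s))) * m) := by
  unfold bigOp
  rw [ofFn_prod_eval _ (fun t : Fin r => (List.ofFn fun j : Fin s => cf F s t j).prod),
    prod_prod_cf]
  intro t m
  exact detE_eval (t : ℕ) m

lemma iota_ne_zero [CharZero F] (i : Fin s) :
    CliffordAlgebra.ι (Qs F s) (Pi.single i 1) ≠ 0 := by
  intro h
  have h1 := CliffordAlgebra.ι_sq_scalar (Qs F s) (Pi.single i 1)
  rw [h, zero_mul, Qs_apply, Finset.sum_eq_single i] at h1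
  · have : Invertible (2 : F) := invertibleOfNonzero two_ne_zero
    rw [Pi.single_eq_same, mul_one, map_one] at h1
    exact zero_ne_one h1
  · intro b _ hb
    rw [Pi.single_eq_of_ne hb, zero_mul]
  · intro h
    exact absurd (Finset.mem_univ _) h

/-- the value of the polynomial in the model is not zero -/
lemma bigOp_ne_zero [CharZero F] (r : ℕ) (i0 : Fin s) :
    bigOp F (fun i : Fin s => eX F s i) (fun j : Fin s => eX F s j)
      (fun (t : Fin r) (j : Fin s) => eB F s (2 * ((t : ℕ) * s + j) + 1))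
      (fun (t : Fin r) (j : Fin s) => eB F s (2 * ((t : ℕ) * s + j)))
      (((JM.mk _ 0 0 0 0 1 * eB F s (2 * (r * s) + 1)) * eX F s i0) * eB F s (2 * (r * s))) ≠ 0 := by
  have h1 : ((JM.mk (JD F s) 0 0 0 0 1 * eB F s (2 * (r * s) + 1)) * eX F s i0) *
      eB F s (2 * (r * s)) = iM ((gen F (2 * (r * s)) * gen F (2 * (r * s) + 1)) ⊗ₜ[F]
        CliffordAlgebra.ι (Qs F s) (Pi.single i0 1)) := by
    apply JM.ext
    · rfl
    · simp [iM]
    · simp [iM]
    · simp [iM, eB, eX, JD_u, JD_v, gen]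
    · simp [iM, eB, eX, JD_u, JD_v]
  rw [h1, bigOp_eval, smul_mul_assoc, Algebra.TensorProduct.tmul_mul_tmul, one_mul, ← mul_assoc,
    ← Gn_succ, ← Gn_succ]
  intro h
  have h2 : ((-2 : F) ^ (r * s)) • ((Gn F (2 * (r * s) + 1 + 1)) ⊗ₜ[F]
      (CliffordAlgebra.ι (Qs F s) (Pi.single i0 1))) = 0 := congrArg JM.m h
  rcases smul_eq_zero.1 h2 with h3 | h3
  · exact absurd (eq_zero_of_pow_eq_zero h3) (neg_ne_zero.2 two_ne_zero)
  · exact iota_ne_zero i0 (eq_zero_of_tmul (Gn_ne_zero F _) h3)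

end conc

end Pool.Agent.Superrank
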