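import Mathlib

set_option autoImplicit false

namespace Pool.Agent.Superrank

section

variable {C : Type} [NonUnitalNonAssocRing C]

set_option backward.isDefEq.respectTransparency false in
/-- the full linearisation of the Jordan identity -/
lemma jordan_lin (hc : ∀ x y : C, x * y = y * x)
    (hJ : ∀ x y : C, ((x * x) * y) * x = (x * x) * (y * x)) (h2 : ∀ x : C, 2 • x = 0 → x = 0)
    (a b c w : C) : (w * (b * c)) * a + (w * (c * a)) * b + (w * (a * b)) * c =
      (w * a) * (b * c) + (w * b) * (c * a) + (w * c) * (a * b) := by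
  let _ : NonUnitalNonAssocCommRing C := { (inferInstance : NonUnitalNonAssocRing C) with
    mul_comm := hc }
  have _ : IsCommJordan C := ⟨fun a b => by
    rw [hc (a * b) (a * a), hc a b, ← hJ a b, hc ((a * a) * b) a, hc (a * a) b]⟩
  have h := two_nsmul_lie_lmul_lmul_add_add_eq_zero (A := C) a b c
  have h3 := congrArg (fun f : AddMonoid.End C => f w) h
  have h4 := h2 _ h3
  simp only [LieRing.of_associative_ring_bracket] at h4
  have h5 : a * ((b * c) * w) - (b * c) * (a * w) + (b * ((c * a) * w) - (c * a) * (b * w)) +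
      (c * ((a * b) * w) - (a * b) * (c * w)) = 0 := h4
  rw [hc (w * (b * c)) a, hc w (b * c), hc (w * (c * a)) b, hc w (c * a), hc (w * (a * b)) c,
    hc w (a * b), hc (w * a) (b * c), hc w a, hc (w * b) (c * a), hc w b, hc (w * c) (a * b),
    hc w c]
  have h6 : a * ((b * c) * w) + b * ((c * a) * w) + c * ((a * b) * w) -
      ((b * c) * (a * w) + (c * a) * (b * w) + (a * b) * (c * w)) = 0 := by
    rw [← h5]; abel
  exact sub_eq_zero.1 h6

/-- `v` is a left normed product of four elements -/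
def K4 (v : C) : Prop := ∃ a b c d : C, v = ((a * b) * c) * d

lemma K4.mul {v : C} (h : K4 v) (x : C) : K4 (v * x) := by
  obtain ⟨a, b, c, d, rfl⟩ := h
  exact ⟨a * b, c, d, x, rfl⟩

/-- The operators `w ↦ (w ((x y) p)) q` commute with each other on the span of the left normed
products of four elements. -/
lemma jordan_T_comm (hc : ∀ x y : C, x * y = y * x)
    (hJ : ∀ x y : C, ((x * x) * y) * x = (x * x) * (y * x)) (h2 : ∀ x : C, 2 • x = 0 → x = 0)
    (hN : ∀ v v' : C, K4 v → K4 v' → v * v' = 0) (w : C) (hw : K4 w)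
    (x y p q x' y' p' q' : C) :
    (((w * ((x * y) * p)) * q) * ((x' * y') * p')) * q' =
      (((w * ((x' * y') * p')) * q') * ((x * y) * p)) * q := by
  have J1 := jordan_lin hc hJ h2
  -- the second form of the linearised identity
  have J2 : ∀ w b y c : C, ((w * b) * y) * c + ((w * c) * y) * b + w * (y * (b * c)) =
      (w * y) * (b * c) + (w * b) * (y * c) + (w * c) * (y * b) := by
    intro w b y c
    have h := J1 w b c y
    rw [hc (y * (b * c)) w, hc c w, hc (y * (w * c)) b, hc y (w * c), hc b ((w * c) * y),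
      hc (y * (w * b)) c, hc y (w * b), hc c ((w * b) * y), hc y w, hc (y * b) (w * c),
      hc (y * c) (w * b)] at h
    rw [hc (w * c) (y * b)] at h
    rw [hc (w * b) (y * c)] at h
    rw [hc (w * c) (y * b), hc (w * b) (y * c)]
    have e : ((w * b) * y) * c + ((w * c) * y) * b + w * (y * (b * c)) =
      w * (y * (b * c)) + ((w * c) * y) * b + ((w * b) * y) * c := by abel
    rw [e, h]
    abel
  have z4 : ∀ a b c d : C, K4 (((a * b) * c) * d) := fun a b c d => ⟨a, b, c, d, rfl⟩
  have z4' : ∀ a b c d : C, K4 (d * ((a * b) * c)) := fun a b c d => by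
    rw [hc]; exact z4 a b c d
  -- (i)
  have i1 : ∀ w : C, K4 w → ∀ x y p q x' y' p' : C,
      ((w * ((x * y) * p)) * q) * ((x' * y') * p') =
        - (((w * ((x' * y') * p')) * q) * ((x * y) * p)) := by
    intro w hw x y p q x' y' p'
    have h := J2 w ((x * y) * p) q ((x' * y') * p')
    have e1 : w * (q * (((x * y) * p) * ((x' * y') * p'))) = 0 := by
      refine hN w _ hw ?_
      rw [hc q]
      exact (z4 _ _ _ _).mul q
    rw [e1, hN (w * q) _ (hw.mul q) (z4 _ _ _ _),
      hN (w * ((x * y) * p)) (q * ((x' * y') * p')) (hw.mul _) (z4' _ _ _ _),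
      hN (w * ((x' * y') * p')) (q * ((x * y) * p)) (hw.mul _) (z4' _ _ _ _), add_zero, add_zero,
      add_zero] at h
    exact eq_neg_of_add_eq_zero_left h
  -- (ii)
  have i2 : ∀ w : C, K4 w → ∀ x y p a b : C,
      ((w * a) * ((x * y) * p)) * b + ((w * b) * ((x * y) * p)) * a =
        (w * ((x * y) * p)) * (a * b) := by
    intro w hw x y p a b
    have h := J2 w a ((x * y) * p) b
    rw [hN w _ hw (z4 _ _ _ _), hN (w * a) _ (hw.mul _) (z4 _ _ _ _),
      hN (w * b) _ (hw.mul _) (z4 _ _ _ _), add_zero, add_zero, add_zero] at h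
    exact h
  -- (iii)
  have i3 : ∀ w : C, K4 w → ∀ x y p a b : C,
      (w * (a * b)) * ((x * y) * p) = (w * ((x * y) * p)) * (a * b) := by
    intro w hw x y p a b
    have h := J1 ((x * y) * p) a b w
    rw [hN w _ hw (z4' _ _ _ _), hN w _ hw (z4 _ _ _ _), zero_mul, zero_mul,
      hN (w * a) _ (hw.mul _) (z4' _ _ _ _), hN (w * b) _ (hw.mul _) (z4 _ _ _ _), add_zero,
      add_zero, add_zero, add_zero] at h
    exact h
  -- (iv)
  have i4 : ∀ w : C, K4 w → ∀ x y p x' y' p' : C,
      (w * ((x * y) * p)) * ((x' * y') * p') = (w * ((x' * y') * p')) * ((x * y) * p) :=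
    fun w hw x y p x' y' p' => (i3 w hw x y p (x' * y') p').symm
  -- (v)
  have i5 : ∀ w : C, K4 w → ∀ x y p x' y' p' a b : C,
      ((w * ((x' * y') * p')) * ((x * y) * p)) * (a * b) = 0 := by
    intro w hw x y p x' y' p' a b
    have h := J2 w ((x' * y') * p') ((x * y) * p) (a * b)
    rw [hN w _ hw (z4 _ _ _ _), hN (w * ((x * y) * p)) _ (hw.mul _) (z4 _ _ _ _),
      hN (w * ((x' * y') * p')) _ (hw.mul _) (z4 _ _ _ _),
      hN (w * (a * b)) _ (hw.mul _) (z4 _ _ _ _), add_zero, add_zero, add_zero,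
      i3 w hw x y p a b, i3 (w * ((x * y) * p)) (hw.mul _) x' y' p' a b,
      i4 w hw x y p x' y' p'] at h
    apply h2
    rw [two_nsmul]
    exact h
  rw [i1 w hw x y p q x' y' p', neg_mul]
  have h := i2 (w * ((x' * y') * p')) (hw.mul _) x y p q q'
  rw [i5 w hw] at h
  rw [neg_eq_iff_add_eq_zero, h]

end

end Pool.Agent.Superrank
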