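import Pool.Agent.Superrank.JIdent

set_option autoImplicit false

namespace Pool.Agent.Superrank

/-- a vector space `V` with a symmetric bilinear form `β`, an associative algebra `R` and linear
maps `u, v : V → R` such that `u a u b + u b u a = β(a, b)`, the `v a` anticommute and the `u a`
commute with the `v b` -/
structure JData (F V R : Type) [Field F] [AddCommGroup V] [Module F V] [Ring R] [Algebra F R] where
  β : V →ₗ[F] V →ₗ[F] F
  u : V →ₗ[F] R
  v : V →ₗ[F] R
  β_symm : ∀ a b, β a b = β b a
  uu : ∀ a, u a * u a + u a * u a = algebraMap F R (β a a)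
  vv : ∀ a b, v a * v b = - (v b * v a)
  vsq : ∀ a, v a * v a = 0
  uv : ∀ a b, u a * v b = v b * u a

variable {F V R : Type} [Field F] [AddCommGroup V] [Module F V] [Ring R] [Algebra F R]

/-- The Jordan algebra `V ⊕ F ⊕ V ⊕ R ⊕ R`: the first three summands form an algebra which is
nilpotent of class three, the last two are a bimodule over it. -/
def JM (_D : JData F V R) : Type := V × F × V × R × R

namespace JM

variable {D : JData F V R}

instance : AddCommGroup (JM D) := inferInstanceAs (AddCommGroup (V × F × V × R × R))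

instance : Module F (JM D) := inferInstanceAs (Module F (V × F × V × R × R))

/-- the coordinates -/
def a (x : JM D) : V := x.1
/-- the coordinates -/
def d (x : JM D) : F := x.2.1
/-- the coordinates -/
def z (x : JM D) : V := x.2.2.1
/-- the coordinates -/
def m (x : JM D) : R := x.2.2.2.1
/-- the coordinates -/
def n (x : JM D) : R := x.2.2.2.2

variable (D) in
/-- constructor -/
def mk (a : V) (d : F) (z : V) (m n : R) : JM D := (a, d, z, m, n)

@[simp] lemma mk_a (a' : V) (d' : F) (z' : V) (m' n' : R) : (mk D a' d' z' m' n').a = a' := rfl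
@[simp] lemma mk_d (a' : V) (d' : F) (z' : V) (m' n' : R) : (mk D a' d' z' m' n').d = d' := rfl
@[simp] lemma mk_z (a' : V) (d' : F) (z' : V) (m' n' : R) : (mk D a' d' z' m' n').z = z' := rfl
@[simp] lemma mk_m (a' : V) (d' : F) (z' : V) (m' n' : R) : (mk D a' d' z' m' n').m = m' := rfl
@[simp] lemma mk_n (a' : V) (d' : F) (z' : V) (m' n' : R) : (mk D a' d' z' m' n').n = n' := rfl

lemma ext {x y : JM D} (h1 : x.a = y.a) (h2 : x.d = y.d) (h3 : x.z = y.z) (h4 : x.m = y.m)
    (h5 : x.n = y.n) : x = y :=
  Prod.ext h1 (Prod.ext h2 (Prod.ext h3 (Prod.ext h4 h5)))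

@[simp] lemma add_a (x y : JM D) : (x + y).a = x.a + y.a := rfl
@[simp] lemma add_d (x y : JM D) : (x + y).d = x.d + y.d := rfl
@[simp] lemma add_z (x y : JM D) : (x + y).z = x.z + y.z := rfl
@[simp] lemma add_m (x y : JM D) : (x + y).m = x.m + y.m := rfl
@[simp] lemma add_n (x y : JM D) : (x + y).n = x.n + y.n := rfl
@[simp] lemma zero_a : (0 : JM D).a = 0 := rfl
@[simp] lemma zero_d : (0 : JM D).d = 0 := rfl
@[simp] lemma zero_z : (0 : JM D).z = 0 := rfl
@[simp] lemma zero_m : (0 : JM D).m = 0 := rfl
@[simp] lemma zero_n : (0 : JM D).n = 0 := rfl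
@[simp] lemma smul_a (t : F) (x : JM D) : (t • x).a = t • x.a := rfl
@[simp] lemma smul_d (t : F) (x : JM D) : (t • x).d = t • x.d := rfl
@[simp] lemma smul_z (t : F) (x : JM D) : (t • x).z = t • x.z := rfl
@[simp] lemma smul_m (t : F) (x : JM D) : (t • x).m = t • x.m := rfl
@[simp] lemma smul_n (t : F) (x : JM D) : (t • x).n = t • x.n := rfl

instance : Mul (JM D) :=
  ⟨fun x y => mk D 0 (D.β x.a y.a) (x.d • y.a + y.d • x.a) (D.v x.a * y.n + D.v y.a * x.n)
    (D.u x.a * y.m + D.u y.a * x.m - (D.v x.z * y.m + D.v y.z * x.m))⟩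

@[simp] lemma mul_a (x y : JM D) : (x * y).a = 0 := rfl
@[simp] lemma mul_d (x y : JM D) : (x * y).d = D.β x.a y.a := rfl
@[simp] lemma mul_z (x y : JM D) : (x * y).z = x.d • y.a + y.d • x.a := rfl
@[simp] lemma mul_m (x y : JM D) : (x * y).m = D.v x.a * y.n + D.v y.a * x.n := rfl
@[simp] lemma mul_n (x y : JM D) : (x * y).n =
    D.u x.a * y.m + D.u y.a * x.m - (D.v x.z * y.m + D.v y.z * x.m) := rfl

instance : NonUnitalNonAssocRing (JM D) :=
  { (inferInstance : AddCommGroup (JM D)) with
    mul := (· * ·)
    left_distrib := fun x y w => by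
      apply ext
      · simp
      · simp
      · simp only [mul_z, add_a, add_d, add_z]; module
      · simp only [mul_m, add_a, add_m, add_n, map_add, mul_add, add_mul]; abel
      · simp only [mul_n, add_a, add_z, add_m, add_n, map_add, mul_add, add_mul]; abel
    right_distrib := fun x y w => by
      apply ext
      · simp
      · simp
      · simp only [mul_z, add_a, add_d, add_z]; module
      · simp only [mul_m, add_a, add_m, add_n, map_add, mul_add, add_mul]; abel
      · simp only [mul_n, add_a, add_z, add_m, add_n, map_add, mul_add, add_mul]; abel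
    zero_mul := fun x => by
      apply ext <;> simp
    mul_zero := fun x => by
      apply ext <;> simp }

instance : IsScalarTower F (JM D) (JM D) :=
  ⟨fun t x y => by
    apply ext
    · show (t • x * y).a = (t • (x * y)).a
      simp
    · show (t • x * y).d = (t • (x * y)).d
      simp
    · show (t • x * y).z = (t • (x * y)).z
      simp only [mul_z, smul_z, smul_a, smul_d, smul_eq_mul]; module
    · show (t • x * y).m = (t • (x * y)).m
      simp only [mul_m, smul_a, smul_m, smul_n, map_smul, smul_mul_assoc, mul_smul_comm, smul_add]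
    · show (t • x * y).n = (t • (x * y)).n
      simp only [mul_n, smul_a, smul_z, smul_m, smul_n, map_smul, smul_mul_assoc, mul_smul_comm,
        smul_add, smul_sub]⟩

instance : SMulCommClass F (JM D) (JM D) :=
  ⟨fun t x y => by
    apply ext
    · show (t • (x * y)).a = (x * (t • y)).a
      simp
    · show (t • (x * y)).d = (x * (t • y)).d
      simp
    · show (t • (x * y)).z = (x * (t • y)).z
      simp only [mul_z, smul_z, smul_a, smul_d, smul_eq_mul]; module
    · show (t • (x * y)).m = (x * (t • y)).m
      simp only [mul_m, smul_a, smul_m, smul_n, map_smul, smul_mul_assoc, mul_smul_comm, smul_add]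
    · show (t • (x * y)).n = (x * (t • y)).n
      simp only [mul_n, smul_a, smul_z, smul_m, smul_n, map_smul, smul_mul_assoc, mul_smul_comm,
        smul_add, smul_sub]⟩

lemma vvz (a : V) (r : R) : D.v a * (D.v a * r) = 0 := by
  rw [← mul_assoc, D.vsq, zero_mul]

lemma vvn (a b : V) (r : R) : D.v a * (D.v b * r) = - (D.v b * (D.v a * r)) := by
  rw [← mul_assoc, D.vv, neg_mul, mul_assoc]

lemma uvc (a b : V) (r : R) : D.u a * (D.v b * r) = D.v b * (D.u a * r) := by
  rw [← mul_assoc, D.uv, mul_assoc]

lemma uuc (a : V) (r : R) : D.u a * (D.u a * r) + D.u a * (D.u a * r) = D.β a a • r := by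
  rw [← mul_assoc, ← add_mul, D.uu, Algebra.smul_def]

lemma comm (x y : JM D) : x * y = y * x := by
  apply ext
  · rfl
  · exact D.β_symm _ _
  · simp only [mul_z]; rw [add_comm]
  · simp only [mul_m]; rw [add_comm]
  · simp only [mul_n]; rw [add_comm (D.u x.a * y.m), add_comm (D.v x.z * y.m)]

/-- `(x² y) x = 0` -/
lemma jordan_left (x y : JM D) : ((x * x) * y) * x = 0 := by
  apply ext
  · rfl
  · simp
  · simp
  · simp only [mul_m, mul_a, map_zero, zero_mul, zero_add, mul_n, mul_z, zero_m]
    simp only [map_add, map_smul, mul_add, mul_sub, add_mul, smul_mul_assoc, mul_smul_comm]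
    rw [uvc y.a x.a x.n, vvz, vvz, vvn x.a y.z, vvz]
    simp
  · simp only [mul_m, mul_a, map_zero, zero_mul, zero_add, mul_n, mul_z, mul_d, zero_n]
    simp only [map_add, map_smul, map_zero, mul_add, mul_sub, add_mul, smul_mul_assoc,
      mul_smul_comm, smul_zero, add_zero]
    rw [uvc x.a y.a, uvc x.a y.a, uvc x.a x.z, vvn x.z y.a, vvn x.z y.a, vvz]
    have h : D.β x.a x.a • (D.v y.a * x.m) =
        D.v y.a * (D.u x.a * (D.u x.a * x.m)) + D.v y.a * (D.u x.a * (D.u x.a * x.m)) := by
      rw [← mul_add, uuc, mul_smul_comm]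
    rw [h]
    simp only [mul_zero]
    abel

/-- `x² (y x) = 0` -/
lemma jordan_right (x y : JM D) : (x * x) * (y * x) = 0 := by
  apply ext
  · rfl
  · simp
  · simp
  · simp
  · simp only [mul_m, mul_a, map_zero, zero_mul, zero_add, mul_n, mul_z, zero_n]
    simp only [map_add, map_smul, mul_add, add_mul, smul_mul_assoc]
    rw [vvn x.a y.a, vvz, vvz]
    simp only [smul_neg, smul_zero]
    abel

lemma l4 (x y s t x' y' s' t' : JM D) : (((x * y) * s) * t) * (((x' * y') * s') * t') = 0 := by
  apply ext <;> simp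

end JM

end Pool.Agent.Superrank
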