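import Pool.Agent.Superrank.Basic

set_option autoImplicit false

open scoped TensorProduct

namespace Pool.Agent.Superrank

section super

variable {F : Type} [Field F] {A : Type} [NonUnitalNonAssocRing A] [Module F A]

lemma zmod2_cases (p : ZMod 2) : p = 0 ∨ p = 1 := by
  have : ∀ x : ZMod 2, x = 0 ∨ x = 1 := by decide
  exact this p

lemma exists_parts {𝒜 : ZMod 2 → Submodule F A} (h : IsSuperalgebra F A 𝒜) (x : A) :
    ∃ x0 ∈ 𝒜 0, ∃ x1 ∈ 𝒜 1, x = x0 + x1 := by
  have hx : x ∈ 𝒜 0 ⊔ 𝒜 1 := by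
    rw [h.isCompl.sup_eq_top]
    exact Submodule.mem_top
  obtain ⟨x0, h0, x1, h1, rfl⟩ := Submodule.mem_sup.1 hx
  exact ⟨x0, h0, x1, h1, rfl⟩

lemma eq_zero_of_both {𝒜 : ZMod 2 → Submodule F A} (h : IsSuperalgebra F A 𝒜) {x : A}
    (h0 : x ∈ 𝒜 0) (h1 : x ∈ 𝒜 1) : x = 0 := by
  have := h.isCompl.disjoint
  rw [Submodule.disjoint_def] at this
  exact this x h0 h1

lemma homog_induction {𝒜 : ZMod 2 → Submodule F A} (h : IsSuperalgebra F A 𝒜) {P : A → Prop}
    (hadd : ∀ x y, P x → P y → P (x + y)) (hP : ∀ p, ∀ x ∈ 𝒜 p, P x) (x : A) : P x := by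
  obtain ⟨x0, h0, x1, h1, rfl⟩ := exists_parts h x
  exact hadd _ _ (hP 0 x0 h0) (hP 1 x1 h1)

variable (F A) in
/-- the span of all products -/
def A2 : Submodule F A := Submodule.span F {x | ∃ c d : A, x = c * d}

lemma mul_mem_A2 (c d : A) : c * d ∈ A2 F A := Submodule.subset_span ⟨c, d, rfl⟩

variable [IsScalarTower F A A] [SMulCommClass F A A]

lemma exists_gens {𝒜 : ZMod 2 → Submodule F A} (h : IsSuperalgebra F A 𝒜) (s : Finset A)
    (hs : NonUnitalAlgebra.adjoin F (s : Set A) = ⊤) :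
    ∃ (k : ℕ) (a b : Fin k → A), (∀ i, a i ∈ 𝒜 0) ∧ (∀ i, b i ∈ 𝒜 1) ∧
      NonUnitalAlgebra.adjoin F (Set.range a ∪ Set.range b) = ⊤ := by
  classical
  choose x0 h0 x1 h1 hx using exists_parts h
  let e := s.equivFin
  refine ⟨s.card, fun i => x0 (e.symm i), fun i => x1 (e.symm i), fun i => h0 _, fun i => h1 _, ?_⟩
  rw [eq_top_iff, ← hs]
  refine NonUnitalAlgebra.adjoin_le fun x hxs => ?_
  rw [hx x]
  refine add_mem (NonUnitalAlgebra.subset_adjoin F (Or.inl ⟨e ⟨x, hxs⟩, by simp⟩))
    (NonUnitalAlgebra.subset_adjoin F (Or.inr ⟨e ⟨x, hxs⟩, by simp⟩))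

/-- the even part is spanned by the even generators modulo products, and similarly for the odd
part -/
lemma parts_span {𝒜 : ZMod 2 → Submodule F A} (h : IsSuperalgebra F A 𝒜) {k : ℕ}
    {a b : Fin k → A} (ha : ∀ i, a i ∈ 𝒜 0) (hb : ∀ i, b i ∈ 𝒜 1)
    (hs : NonUnitalAlgebra.adjoin F (Set.range a ∪ Set.range b) = ⊤) :
    (𝒜 0 ≤ Submodule.span F (Set.range a) ⊔ A2 F A) ∧
      (𝒜 1 ≤ Submodule.span F (Set.range b) ⊔ A2 F A) := by
  let T : ZMod 2 → Submodule F A := fun p =>
    (Submodule.span F (if p = 0 then Set.range a else Set.range b) ⊔ A2 F A) ⊓ 𝒜 p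
  let W : NonUnitalSubalgebra F A :=
    { (T 0 ⊔ T 1 : Submodule F A) with
      mul_mem' := by
        intro x y _ _
        show x * y ∈ T 0 ⊔ T 1
        obtain ⟨x0, hx0, x1, hx1, rfl⟩ := exists_parts h x
        obtain ⟨y0, hy0, y1, hy1, rfl⟩ := exists_parts h y
        have e : (x0 + x1) * (y0 + y1) = (x0 * y0 + x1 * y1) + (x0 * y1 + x1 * y0) := by
          rw [add_mul, mul_add, mul_add]; abel
        rw [e]
        refine Submodule.add_mem_sup ⟨?_, ?_⟩ ⟨?_, ?_⟩
        · exact Submodule.mem_sup_right (add_mem (mul_mem_A2 _ _) (mul_mem_A2 _ _))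
        · refine add_mem ?_ ?_
          · have := h.mul_mem 0 0 x0 hx0 y0 hy0
            rwa [add_zero] at this
          · have := h.mul_mem 1 1 x1 hx1 y1 hy1
            rwa [show (1 : ZMod 2) + 1 = 0 from by decide] at this
        · exact Submodule.mem_sup_right (add_mem (mul_mem_A2 _ _) (mul_mem_A2 _ _))
        · refine add_mem ?_ ?_
          · have := h.mul_mem 0 1 x0 hx0 y1 hy1
            rwa [zero_add] at this
          · have := h.mul_mem 1 0 x1 hx1 y0 hy0
            rwa [add_zero] at this }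
  have hW : W = ⊤ := by
    rw [eq_top_iff, ← hs]
    refine NonUnitalAlgebra.adjoin_le ?_
    rintro x (⟨i, rfl⟩ | ⟨i, rfl⟩)
    · refine Submodule.mem_sup_left ⟨Submodule.mem_sup_left (Submodule.subset_span ?_), ha i⟩
      rw [if_pos rfl]
      exact ⟨i, rfl⟩
    · refine Submodule.mem_sup_right ⟨Submodule.mem_sup_left (Submodule.subset_span ?_), hb i⟩
      rw [if_neg (by decide)]
      exact ⟨i, rfl⟩
  have hmem : ∀ x : A, ∃ t0 ∈ T 0, ∃ t1 ∈ T 1, x = t0 + t1 := by
    intro x
    have : x ∈ W := hW ▸ NonUnitalAlgebra.mem_top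
    obtain ⟨t0, h0, t1, h1, rfl⟩ := Submodule.mem_sup.1 (show x ∈ T 0 ⊔ T 1 from this)
    exact ⟨t0, h0, t1, h1, rfl⟩
  constructor
  · intro x hx
    obtain ⟨t0, h0, t1, h1, rfl⟩ := hmem x
    have h2 : t1 ∈ 𝒜 0 := by
      have := sub_mem hx h0.2
      rwa [add_sub_cancel_left] at this
    have h3 : t1 = 0 := eq_zero_of_both h h2 h1.2
    rw [h3, add_zero]
    have := h0.1
    rwa [if_pos rfl] at this
  · intro x hx
    obtain ⟨t0, h0, t1, h1, rfl⟩ := hmem x
    have h2 : t0 ∈ 𝒜 1 := by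
      have := sub_mem hx h1.2
      rwa [add_sub_cancel_right] at this
    have h3 : t0 = 0 := eq_zero_of_both h h0.2 h2
    rw [h3, zero_add]
    have := h1.1
    rwa [if_neg (by decide)] at this

end super

section nonzero

variable {F : Type} [Field F]

/-- products of distinct generators in increasing order are nonzero -/
lemma list_prod_ne_zero (l : List ℕ) (hl : l.Pairwise (· < ·)) : (l.map (gen F)).prod ≠ 0 := by
  have h := prod_gen_ne_zero (F := F) (OrderEmbedding.ofStrictMono (fun i : Fin l.length => l.get i)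
    (List.pairwise_iff_get.1 hl ·  ·))
  have e : (List.ofFn fun i : Fin l.length => gen F (l.get i)) = l.map (gen F) := by
    have := List.map_ofFn (f := fun i : Fin l.length => l.get i) (g := gen F)
    rw [List.ofFn_get] at this
    rw [this]
    rfl
  rw [← e]
  exact h

/-- `1` or the `i`-th generator, according to the parity -/
noncomputable def pgen (F : Type) [Field F] (p : ZMod 2) (i : ℕ) : Gr F :=
  if p = 0 then 1 else gen F i

lemma pgen_mem (p : ZMod 2) (i : ℕ) : pgen F p i ∈ grPart F p := by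
  rcases zmod2_cases p with rfl | rfl
  · rw [pgen, if_pos rfl]; exact one_mem_grPart
  · rw [pgen, if_neg (by decide)]; exact gen_mem_grPart i

lemma pgen_prod_ne_zero (p : ℕ → ZMod 2) (n : ℕ) :
    ((List.range n).map fun i => pgen F (p i) i).prod ≠ 0 := by
  have e : ∀ l : List ℕ, (l.map fun i => pgen F (p i) i).prod =
      ((l.filter fun i => decide (p i = 1)).map (gen F)).prod := by
    intro l
    induction l with
    | nil => simp
    | cons a l ih =>
      rw [List.map_cons, List.prod_cons, ih, List.filter_cons]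
      rcases zmod2_cases (p a) with h | h
      · rw [pgen, if_pos h, if_neg (by rw [h]; decide), one_mul]
      · rw [pgen, if_neg (by rw [h]; decide), if_pos (by rw [h]; decide), List.map_cons,
          List.prod_cons]
  rw [e]
  apply list_prod_ne_zero
  exact List.Pairwise.filter _ List.pairwise_lt_range

end nonzero

end Pool.Agent.Superrank
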